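import Pool.Agent.H1.LD.D

/-!
# NV: holomorphic vector fields and one measurement: definitions
-/

set_option autoImplicit false

namespace NV1

open Complex Set Filter Topology MeasureTheory EW1 EX1 LD1
open scoped ComplexConjugate ContDiff Real

/-- a quadratic vector field -/
noncomputable def qp (a b c z : ℂ) : ℂ := a + b * z + c * z ^ 2

noncomputable def qd (b c z : ℂ) : ℂ := b + 2 * c * z

/-- the derivative of `qp * m` -/
noncomputable def AA (a b c : ℂ) (m : ℂ → ℂ) (z : ℂ) : ℂ := qd b c z * m z + qp a b c z * deriv m z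

/-- geometric decay -/
def Gs (s : ℝ) (f : ℕ → ℂ) : Prop := ∃ C : ℝ, ∀ n, ‖f n‖ * s ^ n ≤ C

/-- the point of the unit circle -/
noncomputable def ee (t : ℝ) : ℂ := exp (t * I)

end NV1
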