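import Pool.Agent.H1.NV.D

/-!
ROW NV/Vj. The explicit vector field `q(z) = u (α - (conj u (z - z₀))²)`, `z₀ = (c₁ + c₂)/2`, `u = (c₂ - c₁)/d`, `d = ‖c₂ - c₁‖`, `α = d²/4 + (r₁² + r₂²)/2`. Rotate (`w = u w₁`, `μ = u² μ'`): on the first ellipse, with `a = d/2`, `q = u (α - a² + 2 a r (w₁ + μ'/w₁) - r² (w₁² + 2 μ' + μ'² w₁⁻²))`, and
`Re (q conj (w - μ/w)) = 2 a r (1 - ‖μ‖²) + Re (conj w₁ Λ) - r² Re (μ'² w₁⁻³ - conj μ' w₁³)`, `Λ = (α - a² - r²)(1 - μ') - r² (3 μ' - 2 ‖μ‖² - μ' ‖μ‖²)`; so it is `≥ d r (1 - x²) - (1 + x) |r₁² - r₂²|/2 - r² x (3 + 2 x + x²) - r² x (1 + x)`, `x = ‖μ‖`, positive by the hypothesis (`x (4 + 3 x + x²) ≤ 4 x (1 + x)`).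
Second ellipse: the same with `a -> -a`.
-/

set_option autoImplicit false

namespace NV1

open Complex Set Filter Topology MeasureTheory EW1 EX1 LD1
open scoped ComplexConjugate ContDiff Real

/-- the bound in rotated coordinates -/
private theorem Vj_bd (v m : ℂ) (hv : ‖v‖ = 1) (A B r : ℝ) :
    |((((A : ℂ) + B * r * (v + m * conj v) - r ^ 2 * (v + m * conj v) ^ 2) * (conj v - conj m * v)).re) -
      B * r * (1 - ‖m‖ ^ 2)| ≤ |A - r ^ 2| * (1 + ‖m‖) + r ^ 2 * (4 * ‖m‖ + 3 * ‖m‖ ^ 2 + ‖m‖ ^ 3) := by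
  have hvv : v * conj v = 1 := by
    rw [Complex.mul_conj, Complex.normSq_eq_norm_sq, hv]
    norm_num
  have hmm : m * conj m = ((‖m‖ ^ 2 : ℝ) : ℂ) := by
    rw [Complex.mul_conj, Complex.normSq_eq_norm_sq]
  obtain ⟨x, hx⟩ : ∃ x : ℝ, x = ‖m‖ := ⟨_, rfl⟩
  rw [← hx] at hmm ⊢
  obtain ⟨R, hR⟩ : ∃ R : ℂ, R = -(conj m * v) - 2 * m * conj v + 2 * ((x ^ 2 : ℝ) : ℂ) * v +
      ((x ^ 2 : ℝ) : ℂ) * m * conj v - m ^ 2 * conj v ^ 3 + conj m * v ^ 3 := ⟨_, rfl⟩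
  have key : ((A : ℂ) + B * r * (v + m * conj v) - r ^ 2 * (v + m * conj v) ^ 2) * (conj v - conj m * v) =
      ((B * r * (1 - x ^ 2) : ℝ) : ℂ) + ((B * r : ℝ) : ℂ) * (m * conj v ^ 2 - conj (m * conj v ^ 2)) +
        ((A - r ^ 2 : ℝ) : ℂ) * (conj v - conj m * v) + ((r ^ 2 : ℝ) : ℂ) * ((conj v - conj (conj v)) + R) := by
    rw [hR]
    simp only [map_mul, map_pow, Complex.conj_conj]
    push_cast
    push_cast at hmm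
    obtain ⟨V, hV⟩ : ∃ V : ℂ, V = conj v := ⟨_, rfl⟩
    obtain ⟨M, hM⟩ : ∃ M : ℂ, M = conj m := ⟨_, rfl⟩
    rw [← hV] at hvv ⊢
    rw [← hM] at hmm ⊢
    linear_combination (B * r * (1 - m * M) - r ^ 2 * (v + 2 * m * V - m * V * (m * M) - 2 * v * (m * M))) * hvv +
      (-(B * r) - r ^ 2 * (-(2 * v) - m * V)) * hmm
  have hre0 : ∀ z : ℂ, (z - conj z).re = 0 := fun z => by simp
  have hnR : ‖R‖ ≤ 4 * x + 3 * x ^ 2 + x ^ 3 := by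
    have hx0 : 0 ≤ x := by rw [hx]; exact norm_nonneg _
    have hv' : ‖conj v‖ = 1 := by rw [RCLike.norm_conj, hv]
    have hm' : ‖conj m‖ = x := by rw [RCLike.norm_conj, hx]
    have t1 : ‖-(conj m * v)‖ = x := by rw [norm_neg, norm_mul, hm', hv, mul_one]
    have t2 : ‖2 * m * conj v‖ = 2 * x := by
      rw [norm_mul, norm_mul, hv', ← hx, mul_one]
      norm_num
    have t3 : ‖2 * ((x ^ 2 : ℝ) : ℂ) * v‖ = 2 * x ^ 2 := by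
      rw [norm_mul, norm_mul, hv, Complex.norm_real, Real.norm_of_nonneg (sq_nonneg x), mul_one]
      norm_num
    have t4 : ‖((x ^ 2 : ℝ) : ℂ) * m * conj v‖ = x ^ 3 := by
      rw [norm_mul, norm_mul, hv', ← hx, Complex.norm_real, Real.norm_of_nonneg (sq_nonneg x), mul_one]
      ring
    have t5 : ‖m ^ 2 * conj v ^ 3‖ = x ^ 2 := by
      rw [norm_mul, norm_pow, norm_pow, hv', ← hx, one_pow, mul_one]
    have t6 : ‖conj m * v ^ 3‖ = x := by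
      rw [norm_mul, norm_pow, hm', hv, one_pow, mul_one]
    rw [hR]
    calc ‖-(conj m * v) - 2 * m * conj v + 2 * ((x ^ 2 : ℝ) : ℂ) * v + ((x ^ 2 : ℝ) : ℂ) * m * conj v -
          m ^ 2 * conj v ^ 3 + conj m * v ^ 3‖
        ≤ ‖-(conj m * v) - 2 * m * conj v + 2 * ((x ^ 2 : ℝ) : ℂ) * v + ((x ^ 2 : ℝ) : ℂ) * m * conj v -
          m ^ 2 * conj v ^ 3‖ + ‖conj m * v ^ 3‖ := norm_add_le _ _
      _ ≤ (‖-(conj m * v) - 2 * m * conj v + 2 * ((x ^ 2 : ℝ) : ℂ) * v + ((x ^ 2 : ℝ) : ℂ) * m * conj v‖ +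
          ‖m ^ 2 * conj v ^ 3‖) + ‖conj m * v ^ 3‖ := by gcongr; exact norm_sub_le _ _
      _ ≤ ((‖-(conj m * v) - 2 * m * conj v + 2 * ((x ^ 2 : ℝ) : ℂ) * v‖ + ‖((x ^ 2 : ℝ) : ℂ) * m * conj v‖) +
          ‖m ^ 2 * conj v ^ 3‖) + ‖conj m * v ^ 3‖ := by gcongr; exact norm_add_le _ _
      _ ≤ (((‖-(conj m * v) - 2 * m * conj v‖ + ‖2 * ((x ^ 2 : ℝ) : ℂ) * v‖) + ‖((x ^ 2 : ℝ) : ℂ) * m * conj v‖) +
          ‖m ^ 2 * conj v ^ 3‖) + ‖conj m * v ^ 3‖ := by gcongr; exact norm_add_le _ _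
      _ ≤ ((((‖-(conj m * v)‖ + ‖2 * m * conj v‖) + ‖2 * ((x ^ 2 : ℝ) : ℂ) * v‖) + ‖((x ^ 2 : ℝ) : ℂ) * m * conj v‖) +
          ‖m ^ 2 * conj v ^ 3‖) + ‖conj m * v ^ 3‖ := by gcongr; exact norm_sub_le _ _
      _ = 4 * x + 3 * x ^ 2 + x ^ 3 := by
          rw [t1, t2, t3, t4, t5, t6]
          ring
  have hn2 : ‖conj v - conj m * v‖ ≤ 1 + x := by
    refine (norm_sub_le _ _).trans (le_of_eq ?_)
    rw [norm_mul, RCLike.norm_conj, RCLike.norm_conj, hv, ← hx, mul_one]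
  rw [key]
  simp only [Complex.add_re, Complex.re_ofReal_mul, hre0, Complex.ofReal_re, mul_zero, add_zero, zero_add]
  have e : B * r * (1 - x ^ 2) + (A - r ^ 2) * (conj v - conj m * v).re + r ^ 2 * R.re - B * r * (1 - x ^ 2) =
      (A - r ^ 2) * (conj v - conj m * v).re + r ^ 2 * R.re := by ring
  rw [e]
  refine (abs_add_le _ _).trans ?_
  rw [abs_mul, abs_mul, abs_of_nonneg (sq_nonneg r)]
  have h1 := (Complex.abs_re_le_norm (conj v - conj m * v)).trans hn2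
  have h2 := (Complex.abs_re_le_norm R).trans hnR
  gcongr

/-- the rotation -/
private theorem Vj_rot {u w μ c z₀ : ℂ} (hu : ‖u‖ = 1) (hw : ‖w‖ = 1) (α σ r : ℝ) (hc : c - z₀ = σ * u) :
    qp (u * α - conj u * z₀ ^ 2) (2 * conj u * z₀) (-conj u) (c + r * (w + μ * w⁻¹)) * conj (w - μ * w⁻¹) =
      (((α - σ ^ 2 : ℝ) : ℂ) + ((-2 * σ : ℝ) : ℂ) * r * (conj u * w + conj u ^ 2 * μ * conj (conj u * w)) -
        r ^ 2 * (conj u * w + conj u ^ 2 * μ * conj (conj u * w)) ^ 2) *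
        (conj (conj u * w) - conj (conj u ^ 2 * μ) * (conj u * w)) := by
  have huu : u * conj u = 1 := by
    rw [Complex.mul_conj, Complex.normSq_eq_norm_sq, hu]
    norm_num
  have hww : w * conj w = 1 := by
    rw [Complex.mul_conj, Complex.normSq_eq_norm_sq, hw]
    norm_num
  have hwi : w⁻¹ = conj w := by
    rw [inv_eq_of_mul_eq_one_right hww]
  have hcz : c = z₀ + σ * u := by rw [← hc]; ring
  rw [hwi, hcz]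
  unfold qp
  simp only [map_mul, map_pow, map_sub, Complex.conj_conj]
  push_cast
  obtain ⟨U, hU⟩ : ∃ U : ℂ, U = conj u := ⟨_, rfl⟩
  obtain ⟨W, hW⟩ : ∃ W : ℂ, W = conj w := ⟨_, rfl⟩
  obtain ⟨M, hM⟩ : ∃ M : ℂ, M = conj μ := ⟨_, rfl⟩
  rw [← hU, ← hW, ← hM]
  rw [← hU] at huu
  have e1 : U * w + U ^ 2 * μ * (u * W) = U * (w + μ * W) := by
    linear_combination (U * μ * W) * huu
  have e2 : u * W - u ^ 2 * M * (U * w) = u * (W - M * w) := by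
    linear_combination (-(u * M * w)) * huu
  rw [e1, e2]
  obtain ⟨Z, hZ⟩ : ∃ Z : ℂ, Z = w + μ * W := ⟨_, rfl⟩
  obtain ⟨Y, hY⟩ : ∃ Y : ℂ, Y = W - M * w := ⟨_, rfl⟩
  rw [← hZ, ← hY]
  have e3 : u * (α : ℂ) - U * z₀ ^ 2 + 2 * U * z₀ * (z₀ + σ * u + r * Z) + -U * (z₀ + σ * u + r * Z) ^ 2 =
      (((α : ℂ) - σ ^ 2) + -2 * σ * r * (U * Z) - r ^ 2 * (U * Z) ^ 2) * u := by
    linear_combination (-(σ : ℂ) ^ 2 * u + r ^ 2 * Z ^ 2 * U) * huu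
  rw [e3]
  ring

/-- the sign of the boundary term -/
private theorem Vj_sg {r d D x : ℝ} (hr : 0 < r) (hx0 : 0 ≤ x) (hx1 : x < 1)
    (h : 4 * r * x + D / (2 * r) < d * (1 - x)) :
    D / 2 * (1 + x) + r ^ 2 * (4 * x + 3 * x ^ 2 + x ^ 3) < d * r * (1 - x ^ 2) := by
  have h1 : (4 * r * x + D / (2 * r)) * (r * (1 + x)) < d * (1 - x) * (r * (1 + x)) :=
    mul_lt_mul_of_pos_right h (by positivity)
  have h2 : (4 * r * x + D / (2 * r)) * (r * (1 + x)) = 4 * r ^ 2 * x * (1 + x) + D / 2 * (1 + x) := by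
    field_simp
  have h3 : d * (1 - x) * (r * (1 + x)) = d * r * (1 - x ^ 2) := by ring
  rw [h2, h3] at h1
  have h4 : 4 * x + 3 * x ^ 2 + x ^ 3 ≤ 4 * x * (1 + x) := by nlinarith [mul_nonneg hx0 hx0]
  have h5 : r ^ 2 * (4 * x + 3 * x ^ 2 + x ^ 3) ≤ r ^ 2 * (4 * x * (1 + x)) :=
    mul_le_mul_of_nonneg_left h4 (sq_nonneg r)
  linarith

theorem Tpos {c₁ c₂ : ℂ} {r₁ r₂ : ℝ} (hr₁ : 0 < r₁) (hr₂ : 0 < r₂) {μ₁ μ₂ : ℂ} (hμ₁ : ‖μ₁‖ < 1) (hμ₂ : ‖μ₂‖ < 1)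
    (h₁ : 4 * r₁ * ‖μ₁‖ + |r₁ ^ 2 - r₂ ^ 2| / (2 * r₁) < ‖c₂ - c₁‖ * (1 - ‖μ₁‖))
    (h₂ : 4 * r₂ * ‖μ₂‖ + |r₁ ^ 2 - r₂ ^ 2| / (2 * r₂) < ‖c₂ - c₁‖ * (1 - ‖μ₂‖)) :
    ∃ a b c : ℂ, (∀ w : ℂ, ‖w‖ = 1 → 0 < (qp a b c (c₁ + r₁ * (w + μ₁ * w⁻¹)) * conj (w - μ₁ * w⁻¹)).re) ∧
      ∀ w : ℂ, ‖w‖ = 1 → (qp a b c (c₂ + r₂ * (w + μ₂ * w⁻¹)) * conj (w - μ₂ * w⁻¹)).re < 0 := by
  obtain ⟨d, hd⟩ : ∃ d : ℝ, d = ‖c₂ - c₁‖ := ⟨_, rfl⟩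
  rw [← hd] at h₁ h₂
  have hd0 : 0 < d := by
    have h3 : 0 ≤ 4 * r₁ * ‖μ₁‖ + |r₁ ^ 2 - r₂ ^ 2| / (2 * r₁) := by positivity
    have h4 : 0 < d * (1 - ‖μ₁‖) := h3.trans_lt h₁
    by_contra h5
    have h6 := mul_nonpos_of_nonpos_of_nonneg (not_lt.1 h5) (by linarith : 0 ≤ 1 - ‖μ₁‖)
    linarith
  obtain ⟨u, hu⟩ : ∃ u : ℂ, u = (c₂ - c₁) / (d : ℂ) := ⟨_, rfl⟩
  have hdC : (d : ℂ) ≠ 0 := by exact_mod_cast hd0.ne'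
  have hun : ‖u‖ = 1 := by
    rw [hu, norm_div, ← hd, Complex.norm_real, Real.norm_of_nonneg hd0.le, div_self hd0.ne']
  have hcu : c₂ - c₁ = d * u := by
    rw [hu]
    field_simp
  obtain ⟨z₀, hz₀⟩ : ∃ z₀ : ℂ, z₀ = (c₁ + c₂) / 2 := ⟨_, rfl⟩
  have hc1 : c₁ - z₀ = ((-(d / 2) : ℝ) : ℂ) * u := by
    rw [hz₀]
    push_cast
    linear_combination (-(1 / 2 : ℂ)) * hcu
  have hc2 : c₂ - z₀ = (((d / 2) : ℝ) : ℂ) * u := by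
    rw [hz₀]
    push_cast
    linear_combination (1 / 2 : ℂ) * hcu
  obtain ⟨α, hα⟩ : ∃ α : ℝ, α = d ^ 2 / 4 + (r₁ ^ 2 + r₂ ^ 2) / 2 := ⟨_, rfl⟩
  refine ⟨u * α - conj u * z₀ ^ 2, 2 * conj u * z₀, -conj u, ?_, ?_⟩
  · intro w hw
    rw [Vj_rot hun hw α _ r₁ hc1]
    have hv : ‖conj u * w‖ = 1 := by rw [norm_mul, RCLike.norm_conj, hun, hw, one_mul]
    have hm : ‖conj u ^ 2 * μ₁‖ = ‖μ₁‖ := by rw [norm_mul, norm_pow, RCLike.norm_conj, hun, one_pow, one_mul]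
    have h5 := Vj_bd (conj u * w) (conj u ^ 2 * μ₁) hv (α - (-(d / 2)) ^ 2) (-2 * (-(d / 2))) r₁
    rw [hm] at h5
    have h6 : |α - (-(d / 2)) ^ 2 - r₁ ^ 2| = |r₁ ^ 2 - r₂ ^ 2| / 2 := by
      have : α - (-(d / 2)) ^ 2 - r₁ ^ 2 = -((r₁ ^ 2 - r₂ ^ 2) / 2) := by rw [hα]; ring
      rw [this, abs_neg, abs_div, abs_of_pos (two_pos : (0 : ℝ) < 2)]
    rw [h6] at h5
    have h7 := Vj_sg hr₁ (norm_nonneg μ₁) hμ₁ h₁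
    have h8 := (abs_le.1 h5).1
    have h9 : -2 * (-(d / 2)) * r₁ * (1 - ‖μ₁‖ ^ 2) = d * r₁ * (1 - ‖μ₁‖ ^ 2) := by ring
    rw [h9] at h8
    linarith
  · intro w hw
    rw [Vj_rot hun hw α _ r₂ hc2]
    have hv : ‖conj u * w‖ = 1 := by rw [norm_mul, RCLike.norm_conj, hun, hw, one_mul]
    have hm : ‖conj u ^ 2 * μ₂‖ = ‖μ₂‖ := by rw [norm_mul, norm_pow, RCLike.norm_conj, hun, one_pow, one_mul]
    have h5 := Vj_bd (conj u * w) (conj u ^ 2 * μ₂) hv (α - (d / 2) ^ 2) (-2 * (d / 2)) r₂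
    rw [hm] at h5
    have h6 : |α - (d / 2) ^ 2 - r₂ ^ 2| = |r₁ ^ 2 - r₂ ^ 2| / 2 := by
      have : α - (d / 2) ^ 2 - r₂ ^ 2 = (r₁ ^ 2 - r₂ ^ 2) / 2 := by rw [hα]; ring
      rw [this, abs_div, abs_of_pos (two_pos : (0 : ℝ) < 2)]
    rw [h6] at h5
    have h7 := Vj_sg hr₂ (norm_nonneg μ₂) hμ₂ h₂
    have h8 := (abs_le.1 h5).2
    have h9 : -2 * (d / 2) * r₂ * (1 - ‖μ₂‖ ^ 2) = -(d * r₂ * (1 - ‖μ₂‖ ^ 2)) := by ring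
    rw [h9] at h8
    linarith

end NV1
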