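import Pool.Agent.H1.NV.Vi
import Pool.Agent.H1.EX.Xg

/-!
ROW NV/Vk. General ellipse, from `NP` by scaling: `int_aff`, `RR_aff` (`EX/Xg.lean`) with `c₀ = c`, `s = r`; `m₁ w = m (c + r w)` on `{w | c + r w ∈ N}`, `qp a b c (c₀ + r w) = qp a₁ b₁ c₁ w`, `AA a₁ b₁ c₁ m₁ w = r AA a b c m (c₀ + r w)`. Positivity: `‖X‖² + l Re X² ≥ (1 - |l|) ‖X‖²`; if the integral is zero, the continuous nonnegative integrand is zero, so `X = 0` on `[0, 2π]`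
(and everywhere: apply `NP`'s last clause; `X` is `2π`-periodic only by construction, so please add to `NP` what you need or agree with its author: `∀ t ∈ Icc 0 (2π), X t = 0` as hypothesis of the last clause is fine).
-/

set_option autoImplicit false

namespace NV1

open Complex Set Filter Topology MeasureTheory EW1 EX1 LD1
open scoped ComplexConjugate ContDiff Real

private theorem Vk_deriv (c₀ : ℂ) (r : ℝ) (m : ℂ → ℂ) (w : ℂ) :
    deriv (fun w : ℂ => m (c₀ + r * w)) w = r * deriv m (c₀ + r * w) := by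
  have h1 := deriv_comp_mul_left (r : ℂ) (fun u : ℂ => m (c₀ + u)) w
  have h2 := deriv_comp_const_add m c₀ ((r : ℂ) * w)
  rw [h2, smul_eq_mul] at h1
  exact h1

private theorem Vk_qp (c₀ : ℂ) {r : ℝ} (hr : 0 < r) (a b c w : ℂ) :
    qp ((a + b * c₀ + c * c₀ ^ 2) / r) (b + 2 * c * c₀) (c * r) w = qp a b c (c₀ + r * w) / r := by
  have hr0 : (r : ℂ) ≠ 0 := by exact_mod_cast hr.ne'
  unfold qp
  field_simp
  ring

private theorem Vk_AA (c₀ : ℂ) {r : ℝ} (hr : 0 < r) (a b c : ℂ) (m : ℂ → ℂ) (w : ℂ) :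
    AA ((a + b * c₀ + c * c₀ ^ 2) / r) (b + 2 * c * c₀) (c * r) (fun w : ℂ => m (c₀ + r * w)) w =
      AA a b c m (c₀ + r * w) := by
  have hr0 : (r : ℂ) ≠ 0 := by exact_mod_cast hr.ne'
  unfold AA
  rw [Vk_deriv, Vk_qp c₀ hr]
  unfold qd
  field_simp
  ring

private theorem Vk_h {l : ℝ} (_hl : |l| < 1) (x : ℂ) :
    (1 - |l|) * ‖x‖ ^ 2 ≤ ‖x‖ ^ 2 + l * (x ^ 2).re := by
  have h1 : |l * (x ^ 2).re| ≤ |l| * ‖x‖ ^ 2 := by
    rw [abs_mul]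
    refine mul_le_mul_of_nonneg_left ?_ (abs_nonneg l)
    have := Complex.abs_re_le_norm (x ^ 2)
    rwa [norm_pow] at this
  have h2 := (abs_le.1 h1).1
  linarith

private theorem Vk_pw {μ : ℂ} (hμ : ‖μ‖ < 1) (t : ℝ) : 0 < ‖pw μ (ee t)‖ := by
  have h1 : ‖ee t‖ = 1 := Complex.norm_exp_ofReal_mul_I t
  have := norm_sub_norm_le (ee t) (μ * (ee t)⁻¹)
  rw [norm_mul, norm_inv, h1, inv_one, mul_one] at this
  unfold pw
  linarith

theorem NPg {c₀ : ℂ} {r : ℝ} (hr : 0 < r) {μ : ℂ} (hμ : ‖μ‖ < 1) {ρ : ℝ} (hρ : 0 < ρ) (h1 : ‖μ‖ < ρ ^ 2) (hρ1 : ρ < 1) {l : ℝ}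
    (hl0 : l ≠ 0) (hl : |l| < 1) {N : Set ℂ} (hN : IsOpen N) (hK : Kp c₀ r μ ⊆ N) {m : ℂ → ℂ} (hm : DifferentiableOn ℂ m N)
    (a b c : ℂ) {ε : ℝ} (hε : ε = 1 ∨ ε = -1)
    (hT : ∀ w : ℂ, ‖w‖ = 1 → 0 < ε * (qp a b c (c₀ + r * (w + μ * w⁻¹)) * conj (w - μ * w⁻¹)).re) :
    0 ≤ ε * ((∫ z in Dp c₀ r μ 1, conj (m z) * AA a b c m z) + RR c₀ r μ l (AA a b c m) m ρ).re ∧
    (((∫ z in Dp c₀ r μ 1, conj (m z) * AA a b c m z) + RR c₀ r μ l (AA a b c m) m ρ).re = 0 → ∀ z ∈ Dp c₀ r μ 1, m z = 0) := by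
  set m₁ : ℂ → ℂ := fun w => m (c₀ + r * w) with hm₁
  set a₂ : ℂ := (a + b * c₀ + c * c₀ ^ 2) / r with ha₂
  set b₂ : ℂ := b + 2 * c * c₀ with hb₂
  set c₂ : ℂ := c * r with hc₂
  have hr0 : (r : ℂ) ≠ 0 := by exact_mod_cast hr.ne'
  have e0 : (c₀ - c₀) / (r : ℂ) = 0 := by rw [sub_self, zero_div]
  have e1 : r / r = 1 := div_self hr.ne'
  have hvv : ∀ w : ℂ, vv c₀ r μ (c₀ + r * w) = vv 0 1 μ w := by
    intro w
    rw [vv_aff c₀ c₀ r μ hr w, e0, e1]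
  have hN₁ : IsOpen {w : ℂ | c₀ + r * w ∈ N} := hN.preimage (by fun_prop)
  have hK₁ : Kp 0 1 μ ⊆ {w : ℂ | c₀ + r * w ∈ N} := by
    intro w hw
    refine hK ?_
    show ‖vv c₀ r μ (c₀ + r * w)‖ ≤ 1
    rw [hvv]
    exact hw
  have hm1 : DifferentiableOn ℂ m₁ {w : ℂ | c₀ + r * w ∈ N} := by
    refine hm.comp (fun w _ => ?_) (fun w hw => hw)
    have : DifferentiableAt ℂ (fun w : ℂ => c₀ + r * w) w := by fun_prop
    exact this.differentiableWithinAt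
  obtain ⟨X, hXc, hX, hX0⟩ := NP hμ hρ h1 hρ1 hl0 hl hN₁ hK₁ hm1
  have hAA : ∀ w, AA a b c m (c₀ + r * w) = AA a₂ b₂ c₂ m₁ w := fun w => (Vk_AA c₀ hr a b c m w).symm
  have htot : (∫ z in Dp c₀ r μ 1, conj (m z) * AA a b c m z) + RR c₀ r μ l (AA a b c m) m ρ =
      (r : ℂ) ^ 2 * ((∫ z in Dp 0 1 μ 1, conj (m₁ z) * AA a₂ b₂ c₂ m₁ z) +
        RR 0 1 μ l (AA a₂ b₂ c₂ m₁) m₁ ρ) := by
    rw [int_aff c₀ c₀ r μ hr, RR_aff c₀ c₀ r μ hr, e0, e1, ← mul_add]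
    simp only [hAA]
    rfl
  have hre : ((∫ z in Dp c₀ r μ 1, conj (m z) * AA a b c m z) + RR c₀ r μ l (AA a b c m) m ρ).re =
      r ^ 2 * ((1 / 2) * ∫ t in (0 : ℝ)..(2 * π),
        (qp a₂ b₂ c₂ (zw μ (ee t)) * conj (pw μ (ee t))).re / ‖pw μ (ee t)‖ ^ 2 *
          (‖X t‖ ^ 2 + l * (X t ^ 2).re)) := by
    rw [htot, ← hX a₂ b₂ c₂]
    have : (r : ℂ) ^ 2 = ((r ^ 2 : ℝ) : ℂ) := by push_cast; rfl
    rw [this, Complex.re_ofReal_mul]
  have hεε : ε * ε = 1 := by rcases hε with h | h <;> rw [h] <;> norm_num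
  set F : ℝ → ℝ := fun t => ε * ((qp a₂ b₂ c₂ (zw μ (ee t)) * conj (pw μ (ee t))).re / ‖pw μ (ee t)‖ ^ 2 *
          (‖X t‖ ^ 2 + l * (X t ^ 2).re)) with hF
  have hFint : ∫ t in (0 : ℝ)..(2 * π), F t = ε * ∫ t in (0 : ℝ)..(2 * π),
        (qp a₂ b₂ c₂ (zw μ (ee t)) * conj (pw μ (ee t))).re / ‖pw μ (ee t)‖ ^ 2 *
          (‖X t‖ ^ 2 + l * (X t ^ 2).re) := intervalIntegral.integral_const_mul _ _
  have hg : ∀ t : ℝ, 0 < ε * ((qp a₂ b₂ c₂ (zw μ (ee t)) * conj (pw μ (ee t))).re / ‖pw μ (ee t)‖ ^ 2) := by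
    intro t
    have h2 : ‖ee t‖ = 1 := Complex.norm_exp_ofReal_mul_I t
    have h3 := hT (ee t) h2
    have h4 : qp a₂ b₂ c₂ (zw μ (ee t)) * conj (pw μ (ee t)) =
        ((r⁻¹ : ℝ) : ℂ) * (qp a b c (c₀ + r * (ee t + μ * (ee t)⁻¹)) * conj (ee t - μ * (ee t)⁻¹)) := by
      rw [ha₂, hb₂, hc₂, Vk_qp c₀ hr]
      unfold zw pw
      push_cast
      field_simp
    rw [h4, Complex.re_ofReal_mul]
    have h5 := Vk_pw hμ t
    have h6 : ε * (r⁻¹ * (qp a b c (c₀ + r * (ee t + μ * (ee t)⁻¹)) * conj (ee t - μ * (ee t)⁻¹)).re /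
        ‖pw μ (ee t)‖ ^ 2) = r⁻¹ / ‖pw μ (ee t)‖ ^ 2 *
        (ε * (qp a b c (c₀ + r * (ee t + μ * (ee t)⁻¹)) * conj (ee t - μ * (ee t)⁻¹)).re) := by ring
    rw [h6]
    positivity
  have hl1 : 0 < 1 - |l| := by linarith
  have hFpos : ∀ t, (ε * ((qp a₂ b₂ c₂ (zw μ (ee t)) * conj (pw μ (ee t))).re / ‖pw μ (ee t)‖ ^ 2)) *
      ((1 - |l|) * ‖X t‖ ^ 2) ≤ F t := by
    intro t
    have h2 : F t = (ε * ((qp a₂ b₂ c₂ (zw μ (ee t)) * conj (pw μ (ee t))).re / ‖pw μ (ee t)‖ ^ 2)) *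
        (‖X t‖ ^ 2 + l * (X t ^ 2).re) := by
      simp only [hF]; ring
    rw [h2]
    exact mul_le_mul_of_nonneg_left (Vk_h hl (X t)) (hg t).le
  have hFnn : ∀ t, 0 ≤ F t := fun t =>
    le_trans (mul_nonneg (hg t).le (mul_nonneg hl1.le (sq_nonneg _))) (hFpos t)
  have hFc : Continuous F := by
    have hec : Continuous ee := by unfold ee; fun_prop
    have hen : ∀ t, ee t ≠ 0 := fun t => Complex.exp_ne_zero _
    have hei : Continuous fun t => (ee t)⁻¹ := hec.inv₀ hen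
    have hzw : Continuous fun t => zw μ (ee t) := by unfold zw; fun_prop
    have hpw : Continuous fun t => pw μ (ee t) := by unfold pw; fun_prop
    have hqp : Continuous fun t => qp a₂ b₂ c₂ (zw μ (ee t)) := by unfold qp; fun_prop
    have h2 : Continuous fun t => (qp a₂ b₂ c₂ (zw μ (ee t)) * conj (pw μ (ee t))).re :=
      Complex.continuous_re.comp (hqp.mul (Complex.continuous_conj.comp hpw))
    have h3 : Continuous fun t => (X t ^ 2).re := Complex.continuous_re.comp (hXc.pow 2)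
    have h4 : Continuous fun t => (qp a₂ b₂ c₂ (zw μ (ee t)) * conj (pw μ (ee t))).re / ‖pw μ (ee t)‖ ^ 2 :=
      h2.div (hpw.norm.pow 2) (fun t => (pow_pos (Vk_pw hμ t) 2).ne')
    exact continuous_const.mul (h4.mul ((hXc.norm.pow 2).add (continuous_const.mul h3)))
  have h2π : (0 : ℝ) < 2 * π := by positivity
  constructor
  · rw [hre]
    have h2 : ε * (r ^ 2 * ((1 / 2) * ∫ t in (0 : ℝ)..(2 * π),
        (qp a₂ b₂ c₂ (zw μ (ee t)) * conj (pw μ (ee t))).re / ‖pw μ (ee t)‖ ^ 2 *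
          (‖X t‖ ^ 2 + l * (X t ^ 2).re))) = r ^ 2 / 2 * ∫ t in (0 : ℝ)..(2 * π), F t := by
      rw [hFint]; ring
    rw [h2]
    refine mul_nonneg (by positivity) (intervalIntegral.integral_nonneg h2π.le fun t _ => hFnn t)
  · intro h0
    rw [hre] at h0
    have h3 : ∫ t in (0 : ℝ)..(2 * π), F t = 0 := by
      rw [hFint]
      have hr2 : r ^ 2 ≠ 0 := pow_ne_zero 2 hr.ne'
      rcases mul_eq_zero.1 h0 with h4 | h4
      · exact absurd h4 hr2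
      · rcases mul_eq_zero.1 h4 with h5 | h5
        · norm_num at h5
        · rw [h5, mul_zero]
    have hXz : ∀ t ∈ Icc (0 : ℝ) (2 * π), X t = 0 := by
      intro t ht
      by_contra hne
      have h4 : 0 < F t := by
        refine lt_of_lt_of_le (mul_pos (hg t) (mul_pos hl1 ?_)) (hFpos t)
        exact pow_pos (norm_pos_iff.2 hne) 2
      have h5 : 0 < ∫ t in (0 : ℝ)..(2 * π), F t :=
        intervalIntegral.integral_pos h2π hFc.continuousOn (fun t _ => hFnn t) ⟨t, ht, h4⟩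
      exact absurd h3 h5.ne'
    have h6 := hX0 hXz
    intro z hz
    have h7 : z = c₀ + r * ((z - c₀) / r) := by field_simp; ring
    have h8 : (z - c₀) / (r : ℂ) ∈ Dp 0 1 μ 1 := by
      show ‖vv 0 1 μ ((z - c₀) / r)‖ < 1
      rw [← hvv, ← h7]
      exact hz
    have h9 := h6 _ h8
    rw [h7]
    exact h9

end NV1
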