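import Pool.Agent.H1.EX.T6
import Pool.Agent.H1.NV.Vj
import Pool.Agent.H1.NV.Vk

/-!
# NV: two ellipses and a quadratic vector field: assembly
-/

set_option autoImplicit false

namespace NV1

open Complex Set Filter Topology MeasureTheory MD12 ED1 EW1 EX1 EY1
open scoped ComplexConjugate ContDiff Real

/-- a quadratic vector field which points out of the first ellipse and into the second one: the data are different, for every conductivity -/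
theorem main9 {k : ℝ} (hk : 0 < k) (hk1 : k ≠ 1) {Ω : Set ℂ} (hΩo : IsOpen Ω) (hΩb : Bornology.IsBounded Ω) (hΩc : IsPreconnected Ω)
    (hσ : μH[1] (frontier Ω) < ⊤) {c₁ : ℂ} {r₁ : ℝ} {μ₁ c₂ : ℂ} {r₂ : ℝ} {μ₂ : ℂ} (hr₁ : 0 < r₁) (hr₂ : 0 < r₂) (hn₁ : ‖μ₁‖ < 1)
    (hn₂ : ‖μ₂‖ < 1) (hK₁ : Kp c₁ r₁ μ₁ ⊆ Ω) (hK₂ : Kp c₂ r₂ μ₂ ⊆ Ω)
    (hq : ∃ a b c : ℂ, (∀ w : ℂ, ‖w‖ = 1 → 0 < (qp a b c (c₁ + r₁ * (w + μ₁ * w⁻¹)) * conj (w - μ₁ * w⁻¹)).re) ∧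
      ∀ w : ℂ, ‖w‖ = 1 → (qp a b c (c₂ + r₂ * (w + μ₂ * w⁻¹)) * conj (w - μ₂ * w⁻¹)).re < 0)
    {g u₁ u₂ : ℂ → ℝ} {G₁ G₂ : ℂ → ℂ} (hg : MemLp g 2 (μH[1].restrict (frontier Ω)))
    (hg0 : ¬ g =ᵐ[μH[1].restrict (frontier Ω)] 0)
    (h₁ : SolvesC Ω (MD12.cond k (Dp c₁ r₁ μ₁ 1)) g u₁ G₁) (h₂ : SolvesC Ω (MD12.cond k (Dp c₂ r₂ μ₂ 1)) g u₂ G₂)
    (ht : SameTrace Ω u₁ u₂ G₁ G₂) : False := by
  obtain ⟨μ₀, hμ₀⟩ : ∃ μ₀ : ℝ, μ₀ = max ‖μ₁‖ ‖μ₂‖ := ⟨_, rfl⟩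
  have hμ₁ : ‖μ₁‖ ≤ μ₀ := by rw [hμ₀]; exact le_max_left _ _
  have hμ₂ : ‖μ₂‖ ≤ μ₀ := by rw [hμ₀]; exact le_max_right _ _
  have h1 : μ₀ < 1 := by rw [hμ₀]; exact max_lt hn₁ hn₂
  have h0 : 0 ≤ μ₀ := (norm_nonneg _).trans hμ₁
  obtain ⟨ρ, hρd⟩ : ∃ ρ : ℝ, ρ = Real.sqrt ((1 + μ₀) / 2) := ⟨_, rfl⟩
  have hρ2 : ρ ^ 2 = (1 + μ₀) / 2 := by rw [hρd]; exact Real.sq_sqrt (by linarith)
  have hρ0 : 0 < ρ := by rw [hρd]; exact Real.sqrt_pos.2 (by linarith)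
  have hρ1 : ρ < 1 := by nlinarith
  have hμρ : μ₀ < ρ ^ 2 := by rw [hρ2]; linarith
  have hDn : (Dp c₁ r₁ μ₁ 1).Nonempty := ⟨c₁, by
    show ‖vv c₁ r₁ μ₁ c₁‖ < 1
    have : vv c₁ r₁ μ₁ c₁ = 0 := by unfold vv; simp
    rw [this, norm_zero]
    exact one_pos⟩
  have hfin : ¬ ∀ᵐ z ∂volume.restrict (Dp c₁ r₁ μ₁ 1), G₁ z = 0 := fun h =>
    hg0 (Fg hΩo hΩb hΩc hσ (Dp_open _ _ _ _) hDn ((Dp_Kp _ _ _).trans hK₁) hg h₁ h)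
  obtain ⟨M, hM, hid, hz⟩ := pde2 hΩo hΩb hΩc hk hk1 h0 hμρ hρ0 hρ1 hr₁ hr₂ hμ₁ hμ₂ hK₁ hK₂ h₁ h₂ ht
  obtain ⟨a, b, c, q₁, q₂⟩ := hq
  have hl0 : (k - 1) / (k + 1) ≠ 0 := div_ne_zero (sub_ne_zero.2 hk1) (by linarith)
  have hl : |(k - 1) / (k + 1)| < 1 := by
    rw [abs_div, abs_of_pos (by linarith : (0 : ℝ) < k + 1), div_lt_one (by linarith), abs_lt]
    constructor <;> linarith
  have hA : DifferentiableOn ℂ (AA a b c M) Ω := by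
    unfold AA qd qp
    have hM' : DifferentiableOn ℂ (deriv M) Ω := hM.deriv hΩo
    exact ((by fun_prop : DifferentiableOn ℂ (fun z : ℂ => b + 2 * c * z) Ω).mul hM).add
      ((by fun_prop : DifferentiableOn ℂ (fun z : ℂ => a + b * z + c * z ^ 2) Ω).mul hM')
  obtain ⟨p₁, e₁⟩ := NPg (c₀ := c₁) hr₁ hn₁ hρ0 (hμ₁.trans_lt hμρ) hρ1 hl0 hl hΩo hK₁ hM a b c (Or.inl rfl)
    (fun w hw => by rw [one_mul]; exact q₁ w hw)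
  obtain ⟨p₂, -⟩ := NPg (c₀ := c₂) hr₂ hn₂ hρ0 (hμ₂.trans_lt hμρ) hρ1 hl0 hl hΩo hK₂ hM a b c (Or.inr rfl)
    (fun w hw => by have := q₂ w hw; linarith)
  have h3 := congrArg Complex.re (hid _ hA)
  refine hfin (hz (e₁ ?_))
  linarith

end NV1
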