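import Pool.Agent.H1.EX.T6
import Pool.Agent.H1.EX.Xi
import Pool.Agent.H1.NV.T9

/-! # MP_2de571_an, class (a): ellipses with separated centers, every conductivity

Definitions used by the statement: `IsTest`, `Sob`, `cond`, `Solves`, `SameTrace` (in `Pool/Agent/H12/MDM/PDE.lean`).
-/

namespace NVSeparated

open MD12 ED1 EW1 EX1 MeasureTheory Set Filter Topology
open scoped MeasureTheory

/-- the open ellipse with center `c`, half axes `α` (in the direction `e^(iθ)`) and `β` -/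
def ellipse (c : ℂ) (α β θ : ℝ) : Set ℂ :=
  {z | ∃ x y : ℝ, x ^ 2 + y ^ 2 < 1 ∧ z = c + Complex.exp (θ * Complex.I) * (α * x + β * y * Complex.I)}

/-- the closed ellipse -/
def cellipse (c : ℂ) (α β θ : ℝ) : Set ℂ :=
  {z | ∃ x y : ℝ, x ^ 2 + y ^ 2 ≤ 1 ∧ z = c + Complex.exp (θ * Complex.I) * (α * x + β * y * Complex.I)}

/-- an ellipse (a disk if `β = α`) with closure in `Ω` -/
def Adm (Ω : Set ℂ) (c : ℂ) (α β θ : ℝ) : Prop := 0 < β ∧ β ≤ α ∧ cellipse c α β θ ⊆ Ω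

/-- with conductivity `k` and Neumann data `g` the inclusions `D₁`, `D₂` give the same boundary values -/
def SameData (Ω D₁ D₂ : Set ℂ) (g : ℂ → ℝ) (k : ℝ) : Prop :=
  ∃ (u₁ u₂ : ℂ → ℝ) (G₁ G₂ : ℂ → ℂ), Solves Ω k D₁ g u₁ G₁ ∧ Solves Ω k D₂ g u₂ G₂ ∧ SameTrace Ω u₁ u₂ G₁ G₂

/-- the centers are far from each other compared with the eccentricities and with the difference of the sizes (the ellipses may overlap) -/
def Apart (c₁ : ℂ) (α₁ β₁ : ℝ) (c₂ : ℂ) (α₂ β₂ : ℝ) : Prop :=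
  α₁ ^ 2 - β₁ ^ 2 + |(α₁ + β₁) ^ 2 - (α₂ + β₂) ^ 2| / 8 < ‖c₂ - c₁‖ * β₁ ∧
    α₂ ^ 2 - β₂ ^ 2 + |(α₁ + β₁) ^ 2 - (α₂ + β₂) ^ 2| / 8 < ‖c₂ - c₁‖ * β₂

/-- the vector field `a + b z + c z²` points out of the ellipse (`ε = 1`) or into it (`ε = -1`) at every point of its boundary
(`e^(iθ) (β x + α y i)` is an outer normal) -/
def Points (ε : ℝ) (a b c c₀ : ℂ) (α β θ : ℝ) : Prop :=
  ∀ (x y : ℝ) (z : ℂ), x ^ 2 + y ^ 2 = 1 → z = c₀ + Complex.exp (θ * Complex.I) * (α * x + β * y * Complex.I) →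
    0 < ε * ((a + b * z + c * z ^ 2) * (starRingEnd ℂ) (Complex.exp (θ * Complex.I) * (β * x + α * y * Complex.I))).re

private theorem cond_r {α β d X : ℝ} (hβ : 0 < β) (hα : β ≤ α) (h : α ^ 2 - β ^ 2 + |X| / 8 < d * β) :
    4 * ((α + β) / 2) * ((α - β) / (α + β)) + |X / 4| / (2 * ((α + β) / 2)) < d * (1 - (α - β) / (α + β)) := by
  have hs : 0 < α + β := by linarith
  have e1 : 4 * ((α + β) / 2) * ((α - β) / (α + β)) + |X / 4| / (2 * ((α + β) / 2)) = 2 * (α ^ 2 - β ^ 2 + |X| / 8) / (α + β) := by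
    rw [abs_div, abs_of_pos (by norm_num : (0 : ℝ) < 4)]
    field_simp
    ring
  have e2 : d * (1 - (α - β) / (α + β)) = 2 * (d * β) / (α + β) := by
    field_simp
    ring
  rw [e1, e2]
  gcongr

private theorem pts {ε : ℝ} {a b c c₀ : ℂ} {α β θ : ℝ} (hβ : 0 < β) (hα : β ≤ α) : Points ε a b c c₀ α β θ ↔
    ∀ w : ℂ, ‖w‖ = 1 → 0 < ε * (NV1.qp a b c (c₀ + ((α + β) / 2 : ℝ) * (w + ((α - β) / (α + β) : ℝ) *
      Complex.exp (2 * θ * Complex.I) * w⁻¹)) * (starRingEnd ℂ) (w - ((α - β) / (α + β) : ℝ) *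
      Complex.exp (2 * θ * Complex.I) * w⁻¹)).re := by
  have hs : 0 < α + β := by linarith
  have hsc : (α : ℂ) + β ≠ 0 := by exact_mod_cast hs.ne'
  have he : Complex.exp (θ * Complex.I) ≠ 0 := Complex.exp_ne_zero _
  have he2 : Complex.exp (2 * θ * Complex.I) = Complex.exp (θ * Complex.I) ^ 2 := by
    rw [← Complex.exp_nat_mul]
    congr 1
    push_cast
    ring
  have hen : ‖Complex.exp (θ * Complex.I)‖ = 1 := Complex.norm_exp_ofReal_mul_I θ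
  -- the point and the normal
  have key : ∀ x y : ℝ, x ^ 2 + y ^ 2 = 1 → ∀ w : ℂ, w = Complex.exp (θ * Complex.I) * (x + y * Complex.I) →
      c₀ + ((α + β) / 2 : ℝ) * (w + ((α - β) / (α + β) : ℝ) * Complex.exp (2 * θ * Complex.I) * w⁻¹) =
        c₀ + Complex.exp (θ * Complex.I) * (α * x + β * y * Complex.I) ∧
      w - ((α - β) / (α + β) : ℝ) * Complex.exp (2 * θ * Complex.I) * w⁻¹ =
        ((2 / (α + β) : ℝ) : ℂ) * (Complex.exp (θ * Complex.I) * (β * x + α * y * Complex.I)) := by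
    intro x y hxy w hw
    have hxy' : (x : ℂ) ^ 2 + (y : ℂ) ^ 2 = 1 := by exact_mod_cast hxy
    have hprod : ((x : ℂ) + y * Complex.I) * (x - y * Complex.I) = 1 := by
      have : ((x : ℂ) + y * Complex.I) * (x - y * Complex.I) = x ^ 2 - y ^ 2 * Complex.I ^ 2 := by ring
      rw [this, Complex.I_sq]
      linear_combination hxy'
    have hinv : Complex.exp (2 * θ * Complex.I) * w⁻¹ = Complex.exp (θ * Complex.I) * (x - y * Complex.I) := by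
      have h1 : ((x : ℂ) + y * Complex.I)⁻¹ = x - y * Complex.I := inv_eq_of_mul_eq_one_right hprod
      rw [hw, he2, mul_inv, h1]
      field_simp
    constructor
    · rw [mul_assoc (((α - β) / (α + β) : ℝ) : ℂ), hinv, hw]
      push_cast
      field_simp
      ring
    · rw [mul_assoc (((α - β) / (α + β) : ℝ) : ℂ), hinv, hw]
      push_cast
      field_simp
      ring
  have hfac : 0 < 2 / (α + β) := by positivity
  have hre : ∀ (q ν : ℂ), (q * (starRingEnd ℂ) (((2 / (α + β) : ℝ) : ℂ) * ν)).re = 2 / (α + β) * (q * (starRingEnd ℂ) ν).re := by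
    intro q ν
    rw [map_mul, Complex.conj_ofReal, mul_left_comm, Complex.re_ofReal_mul]
  constructor
  · intro h w hw
    obtain ⟨v, hv⟩ : ∃ v : ℂ, v = (Complex.exp (θ * Complex.I))⁻¹ * w := ⟨_, rfl⟩
    have hvn : ‖v‖ = 1 := by rw [hv, norm_mul, norm_inv, hen, hw]; norm_num
    have hxy : v.re ^ 2 + v.im ^ 2 = 1 := by
      have := Complex.sq_norm v
      rw [hvn, Complex.normSq_apply] at this
      nlinarith
    have hwv : w = Complex.exp (θ * Complex.I) * (v.re + v.im * Complex.I) := by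
      rw [Complex.re_add_im, hv, mul_inv_cancel_left₀ he]
    obtain ⟨k1, k2⟩ := key v.re v.im hxy w hwv
    rw [k1, k2, hre]
    have h3 := h v.re v.im _ hxy rfl
    have h4 := mul_pos hfac h3
    unfold NV1.qp
    linarith
  · intro h x y z hxy hz
    have hwn : ‖Complex.exp (θ * Complex.I) * ((x : ℂ) + y * Complex.I)‖ = 1 := by
      rw [norm_mul, hen, one_mul, Complex.norm_def, Complex.normSq_add_mul_I, hxy, Real.sqrt_one]
    obtain ⟨k1, k2⟩ := key x y hxy _ rfl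
    have h3 := h _ hwn
    rw [k1, k2, hre, ← hz] at h3
    unfold NV1.qp at h3
    have h4 : 0 < 2 / (α + β) * (ε * ((a + b * z + c * z ^ 2) *
        (starRingEnd ℂ) (Complex.exp (θ * Complex.I) * (β * x + α * y * Complex.I))).re) := by linarith
    exact (mul_pos_iff_of_pos_left hfac).1 h4

/-- ellipses which are far apart: a vector field exists -/
private theorem apart_pts {c₁ c₂ : ℂ} {α₁ β₁ θ₁ α₂ β₂ θ₂ : ℝ} (hβ₁ : 0 < β₁) (hα₁ : β₁ ≤ α₁) (hβ₂ : 0 < β₂) (hα₂ : β₂ ≤ α₂)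
    (hap : Apart c₁ α₁ β₁ c₂ α₂ β₂) : ∃ a b c : ℂ, Points 1 a b c c₁ α₁ β₁ θ₁ ∧ Points (-1) a b c c₂ α₂ β₂ θ₂ := by
  obtain ⟨-, -, e3⟩ := ell_Dp c₁ hβ₁ hα₁ θ₁
  obtain ⟨-, -, d3⟩ := ell_Dp c₂ hβ₂ hα₂ θ₂
  have hn₁ : ‖(((α₁ - β₁) / (α₁ + β₁) : ℝ) : ℂ) * Complex.exp (2 * θ₁ * Complex.I)‖ < 1 := by
    rw [e3, div_lt_one (by linarith)]
    linarith
  have hn₂ : ‖(((α₂ - β₂) / (α₂ + β₂) : ℝ) : ℂ) * Complex.exp (2 * θ₂ * Complex.I)‖ < 1 := by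
    rw [d3, div_lt_one (by linarith)]
    linarith
  have eX : ((α₁ + β₁) / 2) ^ 2 - ((α₂ + β₂) / 2) ^ 2 = ((α₁ + β₁) ^ 2 - (α₂ + β₂) ^ 2) / 4 := by ring
  obtain ⟨a, b, c, q₁, q₂⟩ := NV1.Tpos (c₁ := c₁) (c₂ := c₂) (r₁ := (α₁ + β₁) / 2) (r₂ := (α₂ + β₂) / 2) (by linarith) (by linarith)
    hn₁ hn₂ (by rw [e3, eX]; exact cond_r hβ₁ hα₁ hap.1) (by rw [d3, eX]; exact cond_r hβ₂ hα₂ hap.2)
  exact ⟨a, b, c, (pts hβ₁ hα₁).2 fun w hw => by rw [one_mul]; exact q₁ w hw,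
    (pts hβ₂ hα₂).2 fun w hw => by have := q₂ w hw; linarith⟩

private theorem far {k : ℝ} (hk : 0 < k) (hk1 : k ≠ 1) {Ω : Set ℂ} (hΩo : IsOpen Ω) (hΩb : Bornology.IsBounded Ω)
    (hΩc : IsConnected Ω) (hσ : μH[1] (frontier Ω) < ⊤) {c₁ c₂ : ℂ} {α₁ β₁ θ₁ α₂ β₂ θ₂ : ℝ} (hA₁ : Adm Ω c₁ α₁ β₁ θ₁)
    (hA₂ : Adm Ω c₂ α₂ β₂ θ₂) (hq : ∃ a b c : ℂ, Points 1 a b c c₁ α₁ β₁ θ₁ ∧ Points (-1) a b c c₂ α₂ β₂ θ₂)
    {g : ℂ → ℝ} (hg : MemLp g 2 (μH[1].restrict (frontier Ω))) (hg0 : ¬ g =ᵐ[μH[1].restrict (frontier Ω)] 0) :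
    ¬ SameData Ω (ellipse c₁ α₁ β₁ θ₁) (ellipse c₂ α₂ β₂ θ₂) g k := by
  rintro ⟨u₁, u₂, G₁, G₂, h₁, h₂, ht⟩
  obtain ⟨e1, e2, e3⟩ := ell_Dp c₁ hA₁.1 hA₁.2.1 θ₁
  obtain ⟨d1, d2, d3⟩ := ell_Dp c₂ hA₂.1 hA₂.2.1 θ₂
  have e1' : ellipse c₁ α₁ β₁ θ₁ = _ := e1
  have d1' : ellipse c₂ α₂ β₂ θ₂ = _ := d1
  rw [e1'] at h₁
  rw [d1'] at h₂
  have hβ₁ := hA₁.1
  have hα₁ := hA₁.2.1
  have hβ₂ := hA₂.1
  have hα₂ := hA₂.2.1
  have hn₁ : ‖(((α₁ - β₁) / (α₁ + β₁) : ℝ) : ℂ) * Complex.exp (2 * θ₁ * Complex.I)‖ < 1 := by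
    rw [e3, div_lt_one (by linarith)]
    linarith
  have hn₂ : ‖(((α₂ - β₂) / (α₂ + β₂) : ℝ) : ℂ) * Complex.exp (2 * θ₂ * Complex.I)‖ < 1 := by
    rw [d3, div_lt_one (by linarith)]
    linarith
  obtain ⟨a, b, c, q₁, q₂⟩ := hq
  refine NV1.main9 hk hk1 hΩo hΩb hΩc.isPreconnected hσ (c₁ := c₁) (r₁ := (α₁ + β₁) / 2) (c₂ := c₂) (r₂ := (α₂ + β₂) / 2)
    (by linarith) (by linarith) hn₁ hn₂ (by rw [← e2]; exact hA₁.2.2) (by rw [← d2]; exact hA₂.2.2)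
    ⟨a, b, c, fun w hw => ?_, fun w hw => ?_⟩ hg hg0 ⟨h₁.sob, h₁.eq⟩ ⟨h₂.sob, h₂.eq⟩ ht
  · have := (pts hβ₁ hα₁).1 q₁ w hw
    linarith
  · have := (pts hβ₂ hα₂).1 q₂ w hw
    linarith

/-- **Ellipses with separated centers (overlap allowed) are distinguished by every measurement, for every conductivity**: it is enough that
the centers are far from each other in the sense of `Apart`, or, more generally, that some vector field `a + b z + c z²` points out of the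
first ellipse and into the second one -/
theorem result :
    ∀ k : ℝ, 0 < k → k ≠ 1 → ∀ Ω : Set ℂ, IsOpen Ω → Bornology.IsBounded Ω → IsConnected Ω → μH[1] (frontier Ω) < ⊤ →
      ∀ (c₁ c₂ : ℂ) (α₁ β₁ θ₁ α₂ β₂ θ₂ : ℝ), Adm Ω c₁ α₁ β₁ θ₁ → Adm Ω c₂ α₂ β₂ θ₂ →
      (Apart c₁ α₁ β₁ c₂ α₂ β₂ ∨ ∃ a b c : ℂ, Points 1 a b c c₁ α₁ β₁ θ₁ ∧ Points (-1) a b c c₂ α₂ β₂ θ₂) →
      ∀ g : ℂ → ℝ, MemLp g 2 (μH[1].restrict (frontier Ω)) → ¬ g =ᵐ[μH[1].restrict (frontier Ω)] 0 →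
        ¬ SameData Ω (ellipse c₁ α₁ β₁ θ₁) (ellipse c₂ α₂ β₂ θ₂) g k := by
  intro k hk hk1 Ω hΩo hΩb hΩc hσ c₁ c₂ α₁ β₁ θ₁ α₂ β₂ θ₂ hA₁ hA₂ h g hg hg0
  refine far hk hk1 hΩo hΩb hΩc hσ hA₁ hA₂ ?_ hg hg0
  rcases h with h | h
  · exact apart_pts hA₁.1 hA₁.2.1 hA₂.1 hA₂.2.1 h
  · exact h

end NVSeparated
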