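import Pool.Agent.H1.NV.D
import Pool.Agent.H1.LD.Lk

/-!
ROW NV/Va. Expansion beyond the unit circle. For `s > 1` near `1` the larger confocal ellipse `{zw μ w : ‖w‖ < s} = Dp 0 s (μ/s²) 1` is in `N` (compactness of `Kp`; its points are within `C (s - 1)` of `Kp 0 1 μ`).
Apply `anaG` (`LD/Lk.lean`) to `F₁ z = F (s z)` and the ellipse `(0, 1, μ/s²)`, `w = s w₁`: `zw μ (s w₁) = s zw (μ/s²) w₁`, `pw μ (s w₁) = s pw (μ/s²) w₁`, and compare the coefficients: `fc 0 1 (μ/s²) F₁ ρ₁ (n+1) = s^n fc 0 1 μ F ρ (n+1)` (up to the exact power; the coefficients do not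
depend on the radius of integration, `Lk_indep` or `fc_Fc`; or compare `sE` series on a circle by `sE_inj`). First for a larger `s₀`, then take `s < s₀`: `‖coefficient‖ s^n ≤ C`.
-/

set_option autoImplicit false

namespace NV1

open Complex Set Filter Topology MeasureTheory EW1 EX1 LD1
open scoped ComplexConjugate ContDiff Real

theorem Va_nb {μ : ℂ} (hμ : ‖μ‖ < 1) {N : Set ℂ} (hN : IsOpen N)
    (hK : Kp 0 1 μ ⊆ N) : ∃ σ : ℝ, 1 < σ ∧ Dp 0 1 μ σ ⊆ N := by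
  have hL : IsCompact ({z | ‖vv 0 1 μ z‖ ≤ 2} \ N) := (cDp_compact one_pos hμ 2).diff hN
  rcases ({z | ‖vv 0 1 μ z‖ ≤ 2} \ N).eq_empty_or_nonempty with h | h
  · refine ⟨2, by norm_num, fun z hz => ?_⟩
    by_contra h1
    have h2 : z ∈ ({z | ‖vv 0 1 μ z‖ ≤ 2} \ N) := ⟨le_of_lt (show ‖vv 0 1 μ z‖ < 2 from hz), h1⟩
    rw [h] at h2
    exact h2
  · obtain ⟨p, hp, hmin⟩ := hL.exists_isMinOn h (vv_cont 0 1 μ).norm.continuousOn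
    have hp1 : 1 < ‖vv 0 1 μ p‖ := by
      by_contra h1
      exact hp.2 (hK (not_lt.1 h1))
    have hp2 : ‖vv 0 1 μ p‖ ≤ 2 := hp.1
    refine ⟨‖vv 0 1 μ p‖, hp1, fun z hz => ?_⟩
    have hz' : ‖vv 0 1 μ z‖ < ‖vv 0 1 μ p‖ := hz
    by_contra h1
    have h2 : ‖vv 0 1 μ p‖ ≤ ‖vv 0 1 μ z‖ := hmin ⟨(hz'.le.trans hp2 : ‖vv 0 1 μ z‖ ≤ 2), h1⟩
    linarith

theorem Va_vv {μ : ℂ} (hμ : ‖μ‖ < 1) (z : ℂ) : ‖vv 0 1 μ z‖ = ‖z - μ * conj z‖ / (1 - ‖μ‖ ^ 2) := by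
  have hq : 0 < 1 - ‖μ‖ ^ 2 := by nlinarith [norm_nonneg μ]
  unfold vv
  rw [sub_zero, one_mul, norm_div, Complex.norm_real, Real.norm_eq_abs, abs_of_pos hq]

theorem Va_top {μ : ℂ} (hμ : ‖μ‖ < 1) {N : Set ℂ} (hN : IsOpen N) (hK : Kp 0 1 μ ⊆ N) :
    ∃ s : ℝ, 1 < s ∧ ∀ z ∈ Dp 0 1 (μ / (s : ℂ) ^ 2) 1, (s : ℂ) * z ∈ N := by
  obtain ⟨σ, hσ, hσN⟩ := Va_nb hμ hN hK
  have ha0 : 0 ≤ ‖μ‖ := norm_nonneg μ
  have hq : 0 < 1 - ‖μ‖ ^ 2 := by nlinarith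
  have hcont : ContinuousAt (fun s : ℝ => s * ((1 - ‖μ‖ ^ 2 / s ^ 4) + 2 * (1 - 1 / s ^ 2))) 1 := by
    fun_prop (disch := norm_num)
  have h1 : (fun s : ℝ => s * ((1 - ‖μ‖ ^ 2 / s ^ 4) + 2 * (1 - 1 / s ^ 2))) 1 < σ * (1 - ‖μ‖ ^ 2) := by
    simp only
    norm_num
    nlinarith
  have h2 : ∀ᶠ s : ℝ in 𝓝[>] 1, s * ((1 - ‖μ‖ ^ 2 / s ^ 4) + 2 * (1 - 1 / s ^ 2)) < σ * (1 - ‖μ‖ ^ 2) :=
    (hcont.eventually (gt_mem_nhds h1)).filter_mono nhdsWithin_le_nhds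
  obtain ⟨s, hs, hs1⟩ := (h2.and self_mem_nhdsWithin).exists
  have hs1' : 1 < s := hs1
  have hs0 : 0 < s := by linarith
  refine ⟨s, hs1', fun z hz => hσN ?_⟩
  have hn : ‖μ / (s : ℂ) ^ 2‖ = ‖μ‖ / s ^ 2 := by
    rw [norm_div, norm_pow, Complex.norm_real, Real.norm_eq_abs, abs_of_pos hs0]
  have hs2 : 1 < s ^ 2 := by nlinarith
  have hle : ‖μ‖ / s ^ 2 ≤ ‖μ‖ := div_le_self ha0 hs2.le
  have hm1 : ‖μ / (s : ℂ) ^ 2‖ < 1 := by rw [hn]; linarith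
  have hz1 : ‖vv 0 1 (μ / (s : ℂ) ^ 2) z‖ < 1 := hz
  obtain ⟨m, hm⟩ : ∃ m : ℂ, m = μ / (s : ℂ) ^ 2 := ⟨_, rfl⟩
  rw [← hm] at hn hm1 hz1
  have hq1 : 0 < 1 - ‖m‖ ^ 2 := by nlinarith [norm_nonneg m]
  rw [Va_vv hm1, div_lt_one hq1] at hz1
  have hz2 : ‖z‖ ≤ 2 := by
    have h3 : ‖z‖ ≤ ‖z - m * conj z‖ + ‖m‖ * ‖z‖ := by
      calc ‖z‖ = ‖(z - m * conj z) + m * conj z‖ := by ring_nf
        _ ≤ ‖z - m * conj z‖ + ‖m * conj z‖ := norm_add_le _ _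
        _ = _ := by rw [norm_mul, RCLike.norm_conj]
    have h4 : (1 - ‖m‖) * ‖z‖ ≤ (1 - ‖m‖) * (1 + ‖m‖) := by nlinarith
    have h5 : ‖z‖ ≤ 1 + ‖m‖ := le_of_mul_le_mul_left h4 (by linarith)
    linarith
  show ‖vv 0 1 μ (s * z)‖ < σ
  rw [Va_vv hμ, div_lt_iff₀ hq]
  have hsC : (s : ℂ) ≠ 0 := by exact_mod_cast hs0.ne'
  have hμm : μ = m * (s : ℂ) ^ 2 := by rw [hm]; field_simp
  have e : (s : ℂ) * z - μ * conj ((s : ℂ) * z) = s * ((z - m * conj z) + (m - μ) * conj z) := by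
    rw [map_mul, Complex.conj_ofReal]
    ring
  have hd : ‖m - μ‖ ≤ 1 - 1 / s ^ 2 := by
    have h6 : m - μ = -(((1 - 1 / s ^ 2 : ℝ) : ℂ) * μ) := by
      rw [hm]
      push_cast
      ring
    have h7 : 0 ≤ 1 - 1 / s ^ 2 := by
      rw [sub_nonneg, div_le_one (by positivity)]
      exact hs2.le
    rw [h6, norm_neg, norm_mul, Complex.norm_real, Real.norm_eq_abs, abs_of_nonneg h7]
    nlinarith
  have h8 : ‖m‖ ^ 2 = ‖μ‖ ^ 2 / s ^ 4 := by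
    rw [hn, div_pow]
    ring
  rw [e, norm_mul, Complex.norm_real, Real.norm_eq_abs, abs_of_pos hs0]
  refine lt_of_le_of_lt ?_ hs
  have h9 : ‖(z - m * conj z) + (m - μ) * conj z‖ ≤ (1 - ‖μ‖ ^ 2 / s ^ 4) + 2 * (1 - 1 / s ^ 2) := by
    refine (norm_add_le _ _).trans ?_
    rw [norm_mul, RCLike.norm_conj, ← h8]
    have h10 : ‖m - μ‖ * ‖z‖ ≤ (1 - 1 / s ^ 2) * 2 := mul_le_mul hd hz2 (norm_nonneg _) ((norm_nonneg _).trans hd)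
    linarith
  exact mul_le_mul_of_nonneg_left h9 hs0.le

theorem Va_pr {r s : ℝ} (hs : s ≠ 0) (t : ℝ) : pr r t = (s : ℂ) * pr (r / s) t := by
  have hsC : (s : ℂ) ≠ 0 := by exact_mod_cast hs
  unfold pr
  push_cast
  field_simp

theorem Va_cf {μ : ℂ} (hμ : ‖μ‖ < 1) {s : ℝ} (hs : 1 < s) {f f₁ : ℕ → ℂ} (hf : Gr f) (hf₁ : Gr f₁)
    (h : ∀ w : ℂ, ‖μ‖ < ‖w‖ → ‖w‖ < 1 → sE μ f w = s * sE (μ / (s : ℂ) ^ 2) f₁ (w / s)) (n : ℕ) :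
    f₁ n = (s : ℂ) ^ n * f n := by
  obtain ⟨r, h1, h2⟩ := exists_between hμ
  have ha0 := norm_nonneg μ
  have hr : 0 < r := ha0.trans_lt h1
  have hs0 : 0 < s := by linarith
  have hsC : (s : ℂ) ≠ 0 := by exact_mod_cast hs0.ne'
  have h3 : ‖μ / (s : ℂ) ^ 2‖ < r / s := by
    rw [norm_div, norm_pow, Complex.norm_real, Real.norm_eq_abs, abs_of_pos hs0, div_lt_div_iff₀ (by positivity) hs0]
    have hx1 : ‖μ‖ * s < r * s := mul_lt_mul_of_pos_right h1 hs0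
    have hx2 : r * s ≤ r * s ^ 2 := mul_le_mul_of_nonneg_left (by nlinarith) hr.le
    exact hx1.trans_le hx2
  have h4 : r / s < 1 := by rw [div_lt_one hs0]; linarith
  have e1 := cz_sE hf h1 h2 n
  have e2 := cz_sE hf₁ h3 h4 n
  have e3 : cz r (sE μ f) ((n : ℤ) + 1) = (s : ℂ) ^ (-(n : ℤ)) * cz (r / s) (sE (μ / (s : ℂ) ^ 2) f₁) ((n : ℤ) + 1) := by
    unfold cz
    rw [← mul_div_assoc, ← intervalIntegral.integral_const_mul]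
    congr 1
    refine intervalIntegral.integral_congr fun t _ => ?_
    show sE μ f (pr r t) * pr r t ^ (-((n : ℤ) + 1)) =
      (s : ℂ) ^ (-(n : ℤ)) * (sE (μ / (s : ℂ) ^ 2) f₁ (pr (r / s) t) * pr (r / s) t ^ (-((n : ℤ) + 1)))
    have hn : ‖pr r t‖ = r := LkA_norm hr t
    rw [h _ (by rw [hn]; exact h1) (by rw [hn]; exact h2), Va_pr (r := r) hs0.ne' t, mul_div_cancel_left₀ _ hsC, mul_zpow]
    have h5 : (s : ℂ) ^ (-(n : ℤ)) = s * (s : ℂ) ^ (-((n : ℤ) + 1)) := by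
      rw [neg_add, zpow_add₀ hsC, zpow_neg_one]
      field_simp
    rw [h5]
    ring
  rw [e1, e2] at e3
  rw [e3, ← mul_assoc, zpow_neg, zpow_natCast, mul_inv_cancel₀ (pow_ne_zero n hsC), one_mul]

theorem Va_sE {μ : ℂ} {s : ℝ} (hs : s ≠ 0) {f f₁ : ℕ → ℂ} (h : ∀ n, f₁ n = (s : ℂ) ^ n * f n) (w : ℂ) :
    sE μ f w = s * sE (μ / (s : ℂ) ^ 2) f₁ (w / s) := by
  have hsC : (s : ℂ) ≠ 0 := by exact_mod_cast hs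
  unfold sE
  rw [← tsum_mul_left]
  refine tsum_congr fun n => ?_
  have h1 : μ / (s : ℂ) ^ 2 * (w / s)⁻¹ = μ * w⁻¹ / s := by
    rw [inv_div]
    field_simp
  rw [h, h1, div_pow, div_pow]
  field_simp
  ring

theorem expa {μ : ℂ} (hμ : ‖μ‖ < 1) {ρ : ℝ} (hρ : 0 < ρ) (h1 : ‖μ‖ < ρ ^ 2) (hρ1 : ρ < 1) {N : Set ℂ} (hN : IsOpen N)
    (hK : Kp 0 1 μ ⊆ N) : ∃ s : ℝ, 1 < s ∧ (∀ w : ℂ, ‖μ‖ < ‖w‖ * s → ‖w‖ < s → zw μ w ∈ N) ∧ ∀ F : ℂ → ℂ, DifferentiableOn ℂ F N →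
      Gs s (fun n => fc 0 1 μ F ρ (n + 1)) ∧
      ∀ w : ℂ, ‖μ‖ < ‖w‖ * s → ‖w‖ < s → F (zw μ w) * pw μ w = sE μ (fun n => fc 0 1 μ F ρ (n + 1)) w := by
  obtain ⟨s₀, hs₀, hin⟩ := Va_top hμ hN hK
  have ha0 := norm_nonneg μ
  have hp : 0 < s₀ := by linarith
  have hsC : (s₀ : ℂ) ≠ 0 := by exact_mod_cast hp.ne'
  have hs2 : 1 < s₀ ^ 2 := by nlinarith
  have hn : ‖μ / (s₀ : ℂ) ^ 2‖ = ‖μ‖ / s₀ ^ 2 := by
    rw [norm_div, norm_pow, Complex.norm_real, Real.norm_eq_abs, abs_of_pos hp]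
  have hle : ‖μ‖ / s₀ ^ 2 ≤ ‖μ‖ := div_le_self ha0 hs2.le
  have hm1 : ‖μ / (s₀ : ℂ) ^ 2‖ < 1 := by rw [hn]; linarith
  have hm2 : ‖μ / (s₀ : ℂ) ^ 2‖ < ρ ^ 2 := by rw [hn]; linarith
  have hz : ∀ w : ℂ, zw μ w = s₀ * zw (μ / (s₀ : ℂ) ^ 2) (w / s₀) := by
    intro w
    unfold zw
    rw [inv_div]
    field_simp
  have hpw : ∀ w : ℂ, pw μ w = s₀ * pw (μ / (s₀ : ℂ) ^ 2) (w / s₀) := by
    intro w
    unfold pw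
    rw [inv_div]
    field_simp
  have hw : ∀ w : ℂ, ‖μ‖ < ‖w‖ * s₀ → ‖w‖ < s₀ → ‖μ / (s₀ : ℂ) ^ 2‖ < ‖w / s₀‖ ∧ ‖w / s₀‖ < 1 := by
    intro w h2 h3
    rw [hn, norm_div, Complex.norm_real, Real.norm_eq_abs, abs_of_pos hp]
    constructor
    · rw [div_lt_div_iff₀ (by positivity) hp]
      nlinarith
    · rw [div_lt_one hp]
      exact h3
  have hmem : ∀ w : ℂ, ‖μ‖ < ‖w‖ * s₀ → ‖w‖ < s₀ → zw μ w ∈ N := by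
    intro w h2 h3
    rw [hz]
    obtain ⟨h4, h5⟩ := hw w h2 h3
    exact hin _ (Lk_mem hm1 h4 h5)
  obtain ⟨s, hs1, hss⟩ := exists_between hs₀
  have hs0 : 0 < s := by linarith
  have hext : ∀ w : ℂ, ‖μ‖ < ‖w‖ * s → ‖μ‖ < ‖w‖ * s₀ := by
    intro w h2
    nlinarith [norm_nonneg w]
  refine ⟨s, hs1, fun w h2 h3 => hmem w (hext w h2) (h3.trans hss), fun F hF => ?_⟩
  have hsub : Dp 0 1 μ 1 ⊆ N := fun z hz => hK (show ‖vv 0 1 μ z‖ ≤ 1 from le_of_lt hz)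
  obtain ⟨g1, g2⟩ := anaG hμ hρ h1 hρ1 (hF.mono hsub)
  have hF₁ : DifferentiableOn ℂ (fun z => F (s₀ * z)) (Dp 0 1 (μ / (s₀ : ℂ) ^ 2) 1) := by
    refine hF.comp (f := fun z : ℂ => (s₀ : ℂ) * z) (by fun_prop) ?_
    intro z hz
    exact hin z hz
  obtain ⟨g3, g4⟩ := anaG hm1 hρ hm2 hρ1 hF₁
  obtain ⟨f, hf⟩ : ∃ f : ℕ → ℂ, f = fun n => fc 0 1 μ F ρ (n + 1) := ⟨_, rfl⟩
  obtain ⟨f₁, hf₁⟩ : ∃ f₁ : ℕ → ℂ, f₁ = fun n => fc 0 1 (μ / (s₀ : ℂ) ^ 2) (fun z => F (s₀ * z)) ρ (n + 1) := ⟨_, rfl⟩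
  rw [← hf] at g1 g2 ⊢
  rw [← hf₁] at g3 g4
  have key : ∀ w : ℂ, ‖μ‖ < ‖w‖ * s₀ → ‖w‖ < s₀ → F (zw μ w) * pw μ w = s₀ * sE (μ / (s₀ : ℂ) ^ 2) f₁ (w / s₀) := by
    intro w h2 h3
    obtain ⟨h4, h5⟩ := hw w h2 h3
    have h6 := (g4 _ h4 h5).2
    rw [← h6, hz, hpw]
    ring
  have hcf : ∀ n, f₁ n = (s₀ : ℂ) ^ n * f n := by
    refine Va_cf hμ hs₀ g1 g3 fun w h2 h3 => ?_
    rw [← (g2 w h2 h3).2]
    refine key w ?_ (h3.trans hs₀)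
    nlinarith [norm_nonneg w]
  constructor
  · obtain ⟨C, hC⟩ := g3 (s / s₀) (by positivity) (by rw [div_lt_one hp]; exact hss)
    refine ⟨C, fun n => ?_⟩
    have h7 := hC n
    rw [hcf, norm_mul, norm_pow, Complex.norm_real, Real.norm_eq_abs, abs_of_pos hp, div_pow] at h7
    have h8 : s₀ ^ n * ‖f n‖ * (s ^ n / s₀ ^ n) = ‖f n‖ * s ^ n := by
      field_simp
    rw [h8] at h7
    exact h7
  · intro w h2 h3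
    rw [key w (hext w h2) (h3.trans hss), ← Va_sE hp.ne' hcf]

end NV1
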