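import Pool.Agent.H1.NV.Va
import Pool.Agent.H1.ND.Na

/-!
ROW NV/Vb. The area integral. With `F = A` on the ellipse: by `expa` the functions are given on a neighborhood of the closed ellipse by their Faber series. One proof: let `P` be a primitive of `F` near `Kp` (convex neighborhood), Green: `∫_D conj m * F = (1/(2i)) ∮_(∂D) ...`, i.e. `= (i/2) ∮ P conj(m dz)` up to sign, and on `‖w‖ = 1`,
`dz = i pw dt`, `P (zw μ w) = const + ∑ A_n/(n+1) (w^(n+1) + (μ/w)^(n+1))`, `m pw = sE`; then orthogonality: `π ∑ (1 - ‖μ‖^(2n+2)) A_n conj M_n / (n+1)`. (Or: existing moment formulas: `Lb_CF`/`JJ` in LD/Lb.lean, `mom` in LD/Lc.lean, `EW/G*.lean`, `H31/LD/Var.lean`; or by density of polynomials: both sides are continuous, and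
for polynomials use the Faber polynomials.) Please look for an existing lemma first (`ED/`, `EW/Fa.lean`, `Fld.id` in `EX/Xa.lean` is proved from such a formula).
-/

set_option autoImplicit false

namespace NV1

open Complex Set Filter Topology MeasureTheory EW1 EX1 LD1
open scoped ComplexConjugate ContDiff Real

private theorem Vb_zpow {R : ℂ} (hR : R ≠ 0) (m : ℤ) :
    ∫ t in (0 : ℝ)..(2 * π), (R * exp (t * I)) ^ m = if m = 0 then (2 * π : ℂ) else 0 := by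
  have h1 : ∀ t : ℝ, (R * exp (t * I)) ^ m = R ^ m * exp ((m * I) * t) := by
    intro t
    rw [mul_zpow, ← Complex.exp_int_mul]
    congr 2
    ring
  simp only [h1]
  rw [intervalIntegral.integral_const_mul]
  split_ifs with h
  · subst h
    simp
  · have hm : (m : ℂ) * I ≠ 0 := mul_ne_zero (by exact_mod_cast h) I_ne_zero
    rw [integral_exp_mul_complex hm]
    have h2 : (m : ℂ) * I * ((2 * π : ℝ) : ℂ) = m * (2 * π * I) := by push_cast; ring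
    rw [h2, Complex.exp_int_mul_two_pi_mul_I]
    simp

private theorem Vb_ne {ρ : ℝ} (hρ : 0 < ρ) : (ρ : ℂ) ≠ 0 := by exact_mod_cast hρ.ne'

private theorem Vb_cont (R : ℂ) : Continuous fun t : ℝ => R * exp (t * I) := by fun_prop

/-- high coefficients of a polynomial vanish -/
private theorem Vb_high {c : ℂ} {r : ℝ} {μ : ℂ} {ρ : ℝ} (hρ : 0 < ρ) {b n : ℕ} (hn : b + 2 ≤ n) :
    fc c r μ (fun z => z ^ b) ρ n = 0 := by
  obtain ⟨j, rfl⟩ : ∃ j, n = b + 1 + (j + 1) := ⟨n - (b + 2), by omega⟩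
  set P : Polynomial ℂ := (Polynomial.C c * Polynomial.X + Polynomial.C (r : ℂ) * (1 + Polynomial.C μ * Polynomial.X ^ 2)) ^ b *
    (Polynomial.C (r : ℂ) * (1 - Polynomial.C μ * Polynomial.X ^ 2)) with hP
  have hw0 : ∀ t : ℝ, (ρ : ℂ) * exp (t * I) ≠ 0 := fun t => mul_ne_zero (Vb_ne hρ) (Complex.exp_ne_zero _)
  have h1 : ∀ t : ℝ, (c + r * (ρ * exp (t * I) + μ * (ρ * exp (t * I))⁻¹)) ^ b *
      (r * (ρ * exp (t * I) - μ * (ρ * exp (t * I))⁻¹)) * (ρ * exp (t * I))⁻¹ ^ (b + 1 + (j + 1)) =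
      ∑ i ∈ Finset.range (P.natDegree + 1), P.coeff i * ((ρ : ℂ) * exp (t * I)) ^ (-((j + 1 + i : ℕ) : ℤ)) := by
    intro t
    have hw := hw0 t
    set w := (ρ : ℂ) * exp (t * I) with hwd
    have e1 : ∑ i ∈ Finset.range (P.natDegree + 1), P.coeff i * w ^ (-((j + 1 + i : ℕ) : ℤ)) =
        w⁻¹ ^ (j + 1) * P.eval w⁻¹ := by
      rw [Polynomial.eval_eq_sum_range, Finset.mul_sum]
      refine Finset.sum_congr rfl fun i _ => ?_
      rw [zpow_neg, zpow_natCast, ← inv_pow, pow_add]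
      ring
    rw [e1, hP]
    simp only [Polynomial.eval_mul, Polynomial.eval_pow, Polynomial.eval_add, Polynomial.eval_sub, Polynomial.eval_C,
      Polynomial.eval_X, Polynomial.eval_one]
    have e2 : c + r * (w + μ * w⁻¹) = w * (c * w⁻¹ + r * (1 + μ * w⁻¹ ^ 2)) := by
      field_simp
    have e3 : r * (w - μ * w⁻¹) = w * (r * (1 - μ * w⁻¹ ^ 2)) := by
      field_simp
    rw [e2, e3, mul_pow]
    have e4 : w ^ b * w * w⁻¹ ^ (b + 1) = 1 := by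
      rw [← pow_succ, inv_pow, mul_inv_cancel₀ (pow_ne_zero _ hw)]
    rw [pow_add w⁻¹ (b + 1) (j + 1)]
    linear_combination (((c * w⁻¹ + r * (1 + μ * w⁻¹ ^ 2)) ^ b) * (r * (1 - μ * w⁻¹ ^ 2)) * w⁻¹ ^ (j + 1)) * e4
  unfold fc
  simp only [h1]
  rw [intervalIntegral.integral_finsetSum]
  · rw [Finset.sum_eq_zero, zero_div]
    intro i _
    rw [intervalIntegral.integral_const_mul, Vb_zpow (Vb_ne hρ), if_neg (by omega), mul_zero]
  · intro i _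
    refine Continuous.intervalIntegrable ?_ _ _
    exact continuous_const.mul ((Vb_cont _).zpow₀ _ fun t => Or.inl (hw0 t))

/-- the Faber polynomials of the second kind -/
noncomputable def VU (μ : ℂ) : ℕ → Polynomial ℂ
  | 0 => 1
  | 1 => Polynomial.X
  | n + 2 => Polynomial.X * VU μ (n + 1) - Polynomial.C μ * VU μ n

theorem VU_pw {μ w : ℂ} (hw : w ≠ 0) :
    ∀ n : ℕ, (VU μ n).eval (zw μ w) * pw μ w = w ^ (n + 1) - (μ * w⁻¹) ^ (n + 1)
  | 0 => by simp [VU, pw]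
  | 1 => by
      simp only [VU, Polynomial.eval_X, zw, pw]
      ring
  | n + 2 => by
      have h1 := VU_pw (μ := μ) hw (n + 1)
      have h2 := VU_pw (μ := μ) hw n
      simp only [VU, Polynomial.eval_sub, Polynomial.eval_mul, Polynomial.eval_X, Polynomial.eval_C]
      have e : ∀ A B : ℂ, (zw μ w * A - μ * B) * pw μ w = zw μ w * (A * pw μ w) - μ * (B * pw μ w) := by
        intro A B
        ring
      rw [e, h1, h2]
      unfold zw
      obtain ⟨v, hv⟩ : ∃ v, v = μ * w⁻¹ := ⟨_, rfl⟩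
      have hv2 : w * v = μ := by rw [hv]; field_simp
      rw [← hv]
      linear_combination (w ^ (n + 1) - v ^ (n + 1)) * hv2

theorem VU_rec {μ z w v : ℂ} (h1 : w + v = z) (h2 : w * v = μ) (n : ℕ) :
    (VU μ (n + 1)).eval z = w * (VU μ n).eval z + v ^ (n + 1) := by
  induction n with
  | zero => simp [VU, h1]
  | succ n ih =>
    rw [show VU μ (n + 1 + 1) = Polynomial.X * VU μ (n + 1) - Polynomial.C μ * VU μ n from rfl]
    simp only [Polynomial.eval_sub, Polynomial.eval_mul, Polynomial.eval_X, Polynomial.eval_C]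
    linear_combination (-(VU μ (n + 1)).eval z) * h1 + v * ih + (VU μ n).eval z * h2

theorem VU_bd {μ z w v : ℂ} (h1 : w + v = z) (h2 : w * v = μ) (hw : ‖w‖ ≤ 1) (hv : ‖v‖ ≤ 1) (n : ℕ) :
    ‖(VU μ n).eval z‖ ≤ n + 1 := by
  induction n with
  | zero => simp [VU]
  | succ n ih =>
    rw [VU_rec h1 h2]
    refine (norm_add_le _ _).trans ?_
    rw [norm_mul, norm_pow]
    have h3 : ‖v‖ ^ (n + 1) ≤ 1 := pow_le_one₀ (norm_nonneg _) hv
    have h4 : ‖w‖ * ‖(VU μ n).eval z‖ ≤ 1 * ‖(VU μ n).eval z‖ := mul_le_mul_of_nonneg_right hw (norm_nonneg _)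
    push_cast
    linarith

theorem Vb_key {μ z w v : ℂ} (hμ : ‖μ‖ < 1) (hz : ‖z - μ * conj z‖ ≤ 1 - ‖μ‖ ^ 2) (h1 : w + v = z) (h2 : w * v = μ) :
    ‖w‖ ≤ 1 := by
  by_contra hw
  rw [not_le] at hw
  have hab : ‖μ‖ = ‖w‖ * ‖v‖ := by rw [← h2, norm_mul]
  have hb0 : 0 ≤ ‖v‖ := norm_nonneg v
  have hb1 : ‖v‖ < 1 := by
    by_contra h
    rw [not_lt] at h
    nlinarith
  have hww : w * conj w = ((‖w‖ ^ 2 : ℝ) : ℂ) := by rw [Complex.mul_conj, Complex.normSq_eq_norm_sq]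
  have hvv : v * conj v = ((‖v‖ ^ 2 : ℝ) : ℂ) := by rw [Complex.mul_conj, Complex.normSq_eq_norm_sq]
  have e : z - μ * conj z = ((1 - ‖v‖ ^ 2 : ℝ) : ℂ) * w - ((‖w‖ ^ 2 - 1 : ℝ) : ℂ) * v := by
    rw [← h1, ← h2, map_add]
    push_cast
    push_cast at hww hvv
    linear_combination (-v) * hww - w * hvv
  have e2 : ‖((1 - ‖v‖ ^ 2 : ℝ) : ℂ) * w‖ - ‖((‖w‖ ^ 2 - 1 : ℝ) : ℂ) * v‖ ≤ ‖z - μ * conj z‖ := by
    rw [e]
    exact norm_sub_norm_le _ _
  have h3 : 0 ≤ 1 - ‖v‖ ^ 2 := by nlinarith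
  have h4 : 0 ≤ ‖w‖ ^ 2 - 1 := by nlinarith
  rw [norm_mul, norm_mul, Complex.norm_real, Complex.norm_real, Real.norm_eq_abs, Real.norm_eq_abs, abs_of_nonneg h3,
    abs_of_nonneg h4] at e2
  rw [hab] at hz hμ
  have h5 : (‖w‖ + ‖v‖) * (1 - ‖w‖ * ‖v‖) ≤ (1 + ‖w‖ * ‖v‖) * (1 - ‖w‖ * ‖v‖) := by nlinarith
  have h6 : ‖w‖ + ‖v‖ ≤ 1 + ‖w‖ * ‖v‖ := le_of_mul_le_mul_right h5 (by linarith)
  nlinarith

theorem Vb_root {μ z : ℂ} (hμ : ‖μ‖ < 1) (hz : z ∈ Kp 0 1 μ) :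
    ∃ w v : ℂ, w + v = z ∧ w * v = μ ∧ ‖w‖ ≤ 1 ∧ ‖v‖ ≤ 1 := by
  have hq : 0 < 1 - ‖μ‖ ^ 2 := by nlinarith [norm_nonneg μ]
  have hz1 : ‖vv 0 1 μ z‖ ≤ 1 := hz
  rw [Va_vv hμ, div_le_one hq] at hz1
  obtain ⟨d, hd⟩ := IsAlgClosed.exists_pow_nat_eq (z ^ 2 - 4 * μ) (n := 2) two_pos
  have h1 : (z + d) / 2 + (z - d) / 2 = z := by ring
  have h2 : (z + d) / 2 * ((z - d) / 2) = μ := by linear_combination (-1 / 4) * hd
  refine ⟨(z + d) / 2, (z - d) / 2, h1, h2, Vb_key hμ hz1 h1 h2, Vb_key hμ hz1 (w := (z - d) / 2) (v := (z + d) / 2) ?_ ?_⟩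
  · rw [add_comm]; exact h1
  · rw [mul_comm]; exact h2

theorem Vb_ser0 {μ z w v : ℂ} {s : ℝ} (hs : 1 < s) {m : ℂ → ℂ} {g : ℕ → ℂ}
    (hm : ∀ w : ℂ, ‖μ‖ < ‖w‖ * s → ‖w‖ < s → m (zw μ w) * pw μ w = sE μ g w) (hz : z ^ 2 ≠ 4 * μ)
    (h1 : w + v = z) (h2 : w * v = μ) (hw : ‖w‖ ≤ 1) (hv : ‖v‖ ≤ 1) (hw0 : w ≠ 0) :
    m z = ∑' n : ℕ, g n * (VU μ n).eval z := by
  have hwp : 0 < ‖w‖ := norm_pos_iff.2 hw0
  have hv1 : μ * w⁻¹ = v := by rw [← h2]; field_simp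
  have hzw : zw μ w = z := by unfold zw; rw [hv1, h1]
  have hpw : pw μ w = w - v := by unfold pw; rw [hv1]
  have hne : w - v ≠ 0 := by
    intro h
    apply hz
    linear_combination (w - v) * h + (-(w + v) - z) * h1 + 4 * h2
  have h3 : ‖μ‖ < ‖w‖ * s := by
    rw [← h2, norm_mul]
    nlinarith
  have h4 := hm w h3 (by linarith)
  rw [hzw, hpw] at h4
  apply mul_right_cancel₀ hne
  rw [h4, ← tsum_mul_right]
  unfold sE
  refine tsum_congr fun n => ?_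
  rw [← VU_pw hw0 n, hzw, hpw]
  ring

theorem Vb_ser {μ z : ℂ} (hμ : ‖μ‖ < 1) {s : ℝ} (hs : 1 < s) {m : ℂ → ℂ} {g : ℕ → ℂ}
    (hm : ∀ w : ℂ, ‖μ‖ < ‖w‖ * s → ‖w‖ < s → m (zw μ w) * pw μ w = sE μ g w) (hz0 : z ≠ 0) (hz : z ^ 2 ≠ 4 * μ)
    (hK : z ∈ Kp 0 1 μ) : m z = ∑' n : ℕ, g n * (VU μ n).eval z := by
  obtain ⟨w, v, h1, h2, h3, h4⟩ := Vb_root hμ hK
  by_cases hw : w = 0
  · refine Vb_ser0 hs hm hz (w := v) (v := w) (by rw [add_comm]; exact h1) (by rw [mul_comm]; exact h2) h4 h3 ?_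
    intro hv
    apply hz0
    rw [← h1, hw, hv, add_zero]
  · exact Vb_ser0 hs hm hz h1 h2 h3 h4 hw

theorem Vb_czc {μ : ℂ} {ρ : ℝ} (hρ : 0 < ρ) (P : Polynomial ℂ) (n : ℤ) :
    Continuous fun t : ℝ => LkE μ (fun z => P.eval z) (pr ρ t) * pr ρ t ^ (-n) := by
  have h1 := Lk_cont ρ
  have h2 : Continuous fun t : ℝ => (pr ρ t)⁻¹ := h1.inv₀ fun t => Lk_ne hρ t
  have h3 : Continuous fun t : ℝ => pr ρ t ^ (-n) := Lk_zc hρ (-n)
  have h4 : Continuous fun t : ℝ => P.eval (zw μ (pr ρ t)) := by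
    refine P.continuous.comp ?_
    unfold zw
    fun_prop
  have h5 : Continuous fun t : ℝ => pw μ (pr ρ t) := by
    unfold pw
    fun_prop
  exact (h4.mul h5).mul h3

theorem Vb_fcadd {μ : ℂ} {ρ : ℝ} (hρ : 0 < ρ) (P Q : Polynomial ℂ) (n : ℕ) :
    fc 0 1 μ (fun z => P.eval z + Q.eval z) ρ n = fc 0 1 μ (fun z => P.eval z) ρ n + fc 0 1 μ (fun z => Q.eval z) ρ n := by
  rw [Lk_fc, Lk_fc, Lk_fc]
  unfold cz
  rw [← add_div, ← intervalIntegral.integral_add ((Vb_czc hρ P n).intervalIntegrable _ _)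
    ((Vb_czc hρ Q n).intervalIntegrable _ _)]
  congr 1
  refine intervalIntegral.integral_congr fun t _ => ?_
  simp only [LkE]
  ring

theorem Vb_fcmul {μ : ℂ} {ρ : ℝ} (a : ℂ) (b : ℕ) (n : ℕ) :
    fc 0 1 μ (fun z => a * z ^ b) ρ n = a * fc 0 1 μ (fun z => z ^ b) ρ n := by
  rw [Lk_fc, Lk_fc]
  unfold cz
  rw [← mul_div_assoc, ← intervalIntegral.integral_const_mul]
  congr 1
  refine intervalIntegral.integral_congr fun t _ => ?_
  simp only [LkE]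
  ring

theorem Vb_fcU {μ : ℂ} {ρ : ℝ} (hρ : 0 < ρ) (h1 : ‖μ‖ < ρ) (hρ1 : ρ < 1) (n j : ℕ) :
    fc 0 1 μ (fun z => (VU μ n).eval z) ρ (j + 1) = if j = n then 1 else 0 := by
  have hG : Gr (fun k => if k = n then (1 : ℂ) else 0) := by
    intro s hs hs1
    refine ⟨1, fun k => ?_⟩
    have h2 : s ^ k ≤ 1 := pow_le_one₀ hs.le hs1.le
    have h3 : ‖(if k = n then (1 : ℂ) else 0)‖ ≤ 1 := by split_ifs <;> simp
    have h4 : 0 ≤ s ^ k := by positivity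
    nlinarith [norm_nonneg (if k = n then (1 : ℂ) else 0)]
  have h2 := cz_sE hG h1 hρ1 j
  rw [Lk_fc, ← h2]
  unfold cz
  congr 1
  refine intervalIntegral.integral_congr fun t _ => ?_
  have h3 : sE μ (fun k => if k = n then (1 : ℂ) else 0) (pr ρ t) = LkE μ (fun z => (VU μ n).eval z) (pr ρ t) := by
    unfold sE LkE
    rw [tsum_eq_single n]
    · show (if n = n then (1 : ℂ) else 0) * _ = _
      rw [if_pos rfl, one_mul]
      exact (VU_pw (Lk_ne hρ t) n).symm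
    · intro k hk
      show (if k = n then (1 : ℂ) else 0) * _ = 0
      rw [if_neg hk, zero_mul]
  simp only [h3]
  push_cast
  rfl

theorem Vb_int {μ : ℂ} (hμ : ‖μ‖ < 1) {N : Set ℂ} (hK : Kp 0 1 μ ⊆ N) {F : ℂ → ℂ} (hF : DifferentiableOn ℂ F N)
    {p : ℂ → ℂ} (hp : Continuous p) : IntegrableOn (fun z => F z * conj (p z)) (Dp 0 1 μ 1) := by
  have hc : IsCompact (Kp 0 1 μ) := cDp_compact one_pos hμ 1
  have h1 : ContinuousOn (fun z => F z * conj (p z)) (Kp 0 1 μ) :=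
    (hF.continuousOn.mono hK).mul (Complex.continuous_conj.comp hp).continuousOn
  exact (h1.integrableOn_compact hc).mono_set fun z hz => (show ‖vv 0 1 μ z‖ ≤ 1 from le_of_lt hz)

theorem Vb_poly {μ : ℂ} (hμ : ‖μ‖ < 1) {ρ : ℝ} (hρ : 0 < ρ) (h1 : ‖μ‖ < ρ ^ 2) (hρ1 : ρ < 1) {N : Set ℂ} (hN : IsOpen N)
    (hK : Kp 0 1 μ ⊆ N) {F : ℂ → ℂ} (hF : DifferentiableOn ℂ F N) (P : Polynomial ℂ) :
    ∃ K₀ : ℕ, ∀ K, K₀ ≤ K → ∫ z in Dp 0 1 μ 1, F z * conj (P.eval z) = π * ∑ n ∈ Finset.range K,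
      ((1 - ‖μ‖ ^ (2 * (n + 1)) : ℝ) : ℂ) / (n + 1) * fc 0 1 μ F ρ (n + 1) *
        conj (fc 0 1 μ (fun z => P.eval z) ρ (n + 1)) := by
  induction P using Polynomial.induction_on' with
  | add p q hp hq =>
    obtain ⟨K₁, h2⟩ := hp
    obtain ⟨K₂, h3⟩ := hq
    refine ⟨max K₁ K₂, fun K hKK => ?_⟩
    have h4 := h2 K ((le_max_left _ _).trans hKK)
    have h5 := h3 K ((le_max_right _ _).trans hKK)
    have e1 : ∫ z in Dp 0 1 μ 1, F z * conj ((p + q).eval z) =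
        (∫ z in Dp 0 1 μ 1, F z * conj (p.eval z)) + ∫ z in Dp 0 1 μ 1, F z * conj (q.eval z) := by
      rw [← integral_add (Vb_int hμ hK hF p.continuous) (Vb_int hμ hK hF q.continuous)]
      congr 1
      ext z
      rw [Polynomial.eval_add, map_add]
      ring
    rw [e1, h4, h5, ← mul_add, ← Finset.sum_add_distrib]
    congr 1
    refine Finset.sum_congr rfl fun n _ => ?_
    simp only [Polynomial.eval_add]
    rw [Vb_fcadd hρ, map_add]
    ring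
  | monomial b a =>
    refine ⟨b + 1, fun K hKK => ?_⟩
    simp only [Polynomial.eval_monomial]
    have e1 : ∫ z in Dp 0 1 μ 1, F z * conj (a * z ^ b) = conj a * ∫ z in Dp 0 1 μ 1, F z * conj z ^ b := by
      rw [← integral_const_mul]
      congr 1
      ext z
      rw [map_mul, map_pow]
      ring
    rw [e1, ND1.PM one_pos hρ h1 hρ1 hN hK hF b]
    have e2 : ∑ n ∈ Finset.range K, ((1 - ‖μ‖ ^ (2 * (n + 1)) : ℝ) : ℂ) / (n + 1) * fc 0 1 μ F ρ (n + 1) *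
        conj (fc 0 1 μ (fun z => a * z ^ b) ρ (n + 1)) = ∑ n ∈ Finset.range (b + 1),
        ((1 - ‖μ‖ ^ (2 * (n + 1)) : ℝ) : ℂ) / (n + 1) * fc 0 1 μ F ρ (n + 1) *
        conj (fc 0 1 μ (fun z => a * z ^ b) ρ (n + 1)) := by
      symm
      refine Finset.sum_subset (Finset.range_subset_range.2 hKK) fun n _ hn => ?_
      rw [Finset.mem_range, not_lt] at hn
      rw [Vb_fcmul, Vb_high hρ (by omega : b + 2 ≤ n + 1), mul_zero, map_zero, mul_zero]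
    rw [e2, ← mul_assoc, mul_comm (conj a) (π : ℂ), mul_assoc, Finset.mul_sum]
    congr 1
    refine Finset.sum_congr rfl fun n _ => ?_
    rw [Vb_fcmul, map_mul]
    ring

theorem Vb_U {μ : ℂ} (hμ : ‖μ‖ < 1) {ρ : ℝ} (hρ : 0 < ρ) (h1 : ‖μ‖ < ρ ^ 2) (hρ1 : ρ < 1) {N : Set ℂ} (hN : IsOpen N)
    (hK : Kp 0 1 μ ⊆ N) {F : ℂ → ℂ} (hF : DifferentiableOn ℂ F N) (n : ℕ) :
    ∫ z in Dp 0 1 μ 1, F z * conj ((VU μ n).eval z) = π *
      (((1 - ‖μ‖ ^ (2 * (n + 1)) : ℝ) : ℂ) / (n + 1) * fc 0 1 μ F ρ (n + 1)) := by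
  obtain ⟨K₀, h⟩ := Vb_poly hμ hρ h1 hρ1 hN hK hF (VU μ n)
  rw [h (max K₀ (n + 1)) (le_max_left _ _)]
  congr 1
  have hμρ : ‖μ‖ < ρ := by nlinarith
  rw [Finset.sum_eq_single n]
  · rw [Vb_fcU hρ hμρ hρ1, if_pos rfl, map_one, mul_one]
  · intro j _ hj
    rw [Vb_fcU hρ hμρ hρ1, if_neg hj, map_zero, mul_zero]
  · intro hn
    exact absurd (Finset.mem_range.2 (lt_of_lt_of_le (Nat.lt_succ_self n) (le_max_right _ _))) hn

theorem area {μ : ℂ} (hμ : ‖μ‖ < 1) {ρ : ℝ} (hρ : 0 < ρ) (h1 : ‖μ‖ < ρ ^ 2) (hρ1 : ρ < 1) {N : Set ℂ} (hN : IsOpen N)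
    (hK : Kp 0 1 μ ⊆ N) {F m : ℂ → ℂ} (hF : DifferentiableOn ℂ F N) (hm : DifferentiableOn ℂ m N) :
    ∫ z in Dp 0 1 μ 1, conj (m z) * F z =
      π * ∑' n : ℕ, ((1 - ‖μ‖ ^ (2 * (n + 1)) : ℝ) : ℂ) * fc 0 1 μ F ρ (n + 1) * conj (fc 0 1 μ m ρ (n + 1)) / ((n : ℂ) + 1) := by
  obtain ⟨s, hs, -, hexp⟩ := expa hμ hρ h1 hρ1 hN hK
  obtain ⟨⟨C, hC⟩, hm2⟩ := hexp m hm
  obtain ⟨g, hg⟩ : ∃ g : ℕ → ℂ, g = fun n => fc 0 1 μ m ρ (n + 1) := ⟨_, rfl⟩
  rw [← hg] at hm2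
  have hC' : ∀ n, ‖g n‖ * s ^ n ≤ C := by rw [hg]; exact hC
  have hs0 : 0 < s := by linarith
  have hDK : Dp 0 1 μ 1 ⊆ Kp 0 1 μ := fun z hz => (show ‖vv 0 1 μ z‖ ≤ 1 from le_of_lt hz)
  have hc : IsCompact (Kp 0 1 μ) := cDp_compact one_pos hμ 1
  have hvol : volume (Dp 0 1 μ 1) < ⊤ := (measure_mono hDK).trans_lt hc.measure_lt_top
  obtain ⟨M, hM⟩ := hc.exists_bound_of_continuousOn (hF.continuousOn.mono hK)
  have hdm : MeasurableSet (Dp 0 1 μ 1) := (Dp_open 0 1 μ 1).measurableSet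
  -- the series, almost everywhere
  have hae : ∀ᵐ z ∂(volume.restrict (Dp 0 1 μ 1)), conj (m z) * F z =
      ∑' n : ℕ, F z * conj (g n * (VU μ n).eval z) := by
    obtain ⟨d, hd⟩ := IsAlgClosed.exists_pow_nat_eq (4 * μ) (n := 2) two_pos
    have hfin : ({0, d, -d} : Set ℂ).Finite := by simp
    have h0 : ∀ᵐ z ∂(volume.restrict (Dp 0 1 μ 1)), z ∉ ({0, d, -d} : Set ℂ) :=
      ae_restrict_of_ae (compl_mem_ae_iff.2 (hfin.measure_zero _))
    filter_upwards [h0, ae_restrict_mem hdm] with z hz hzD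
    have hz0 : z ≠ 0 := fun h => hz (by simp [h])
    have hz2 : z ^ 2 ≠ 4 * μ := by
      intro h
      rw [← hd] at h
      rcases sq_eq_sq_iff_eq_or_eq_neg.1 h with h | h
      · exact hz (by simp [h])
      · exact hz (by simp [h])
    rw [Vb_ser hμ hs hm2 hz0 hz2 (hDK hzD), Complex.conj_tsum, tsum_mul_left, mul_comm]
  rw [integral_congr_ae hae]
  have hint : ∀ n, Integrable (fun z => F z * conj (g n * (VU μ n).eval z)) (volume.restrict (Dp 0 1 μ 1)) :=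
    fun n => Vb_int hμ hK hF (continuous_const.mul (VU μ n).continuous)
  have hq1 : (1 / s) < 1 := by rw [div_lt_one hs0]; exact hs
  have hsum0 : Summable fun n : ℕ => (M * C * (volume.real (Dp 0 1 μ 1))) * (((n : ℝ) + 1) * (1 / s) ^ n) := by
    refine Summable.mul_left _ ?_
    have h5 : Summable fun n : ℕ => ((n : ℝ) ^ 1 * (1 / s) ^ n) :=
      summable_pow_mul_geometric_of_norm_lt_one 1 (by
        rw [Real.norm_eq_abs, abs_of_pos (by positivity)]; exact hq1)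
    have h6 : Summable fun n : ℕ => (1 / s) ^ n := summable_geometric_of_lt_one (by positivity) hq1
    refine (h5.add h6).congr fun n => ?_
    ring
  have hsum : Summable fun n : ℕ => ∫ z in Dp 0 1 μ 1, ‖F z * conj (g n * (VU μ n).eval z)‖ := by
    refine Summable.of_nonneg_of_le (fun n => integral_nonneg fun z => norm_nonneg _) (fun n => ?_) hsum0
    have h7 : ∀ z ∈ Dp 0 1 μ 1, ‖‖F z * conj (g n * (VU μ n).eval z)‖‖ ≤ M * C * (((n : ℝ) + 1) * (1 / s) ^ n) := by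
      intro z hz
      rw [norm_norm, norm_mul, RCLike.norm_conj, norm_mul]
      obtain ⟨w, v, g1, g2, g3, g4⟩ := Vb_root hμ (hDK hz)
      have g5 := VU_bd g1 g2 g3 g4 n
      have g6 := hM z (hDK hz)
      have g7 : ‖g n‖ ≤ C * (1 / s) ^ n := by
        rw [one_div, inv_pow, ← div_eq_mul_inv, le_div_iff₀ (by positivity)]
        exact hC' n
      calc ‖F z‖ * (‖g n‖ * ‖(VU μ n).eval z‖) ≤ M * ((C * (1 / s) ^ n) * ((n : ℝ) + 1)) := by
            refine mul_le_mul g6 (mul_le_mul g7 g5 (norm_nonneg _) ((norm_nonneg _).trans g7)) (by positivity)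
              ((norm_nonneg _).trans g6)
        _ = _ := by ring
    have h8 := norm_setIntegral_le_of_norm_le_const hvol h7
    rw [Real.norm_eq_abs] at h8
    refine (le_abs_self _).trans (h8.trans (le_of_eq ?_))
    ring
  have hS := hasSum_integral_of_summable_integral_norm hint hsum
  rw [← hS.tsum_eq, ← tsum_mul_left]
  refine tsum_congr fun n => ?_
  have e3 : ∫ z in Dp 0 1 μ 1, F z * conj (g n * (VU μ n).eval z) =
      conj (g n) * ∫ z in Dp 0 1 μ 1, F z * conj ((VU μ n).eval z) := by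
    rw [← integral_const_mul]
    congr 1
    ext z
    rw [map_mul]
    ring
  rw [e3, Vb_U hμ hρ h1 hρ1 hN hK hF n, hg]
  ring

end NV1
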