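import Pool.Agent.H1.NV.Vb

/-!
ROW NV/Vc. The whole form. `area` and the definition of `RR`, `rt` (`EW/D0.lean`): termwise `(1 - x²) A conj M / n + rt l μ A M n = (1 - x²) A conj (fh l μ M n) / n` (`x = ‖μ‖^n`, `fh l μ M n = (M + l conj μ^(n+1) conj M)/(1 - l² ‖μ‖^(2n+2))`), and both series are summable (`expa`: `‖A_n‖ ≤ C s^(-n)`, `s > 1`).
-/

set_option autoImplicit false

namespace NV1

open Complex Set Filter Topology MeasureTheory EW1 EX1 LD1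
open scoped ComplexConjugate ContDiff Real

theorem Vc_sm {s : ℝ} (hs : 1 < s) {f : ℕ → ℂ} (hf : Gs s f) {t : ℕ → ℂ} {K : ℝ} (hK : 0 ≤ K)
    (h : ∀ n, ‖t n‖ ≤ K * ‖f n‖) : Summable t := by
  obtain ⟨C, hC⟩ := hf
  have hs0 : 0 < s := by linarith
  have hg : Summable fun n : ℕ => K * (C * (s⁻¹) ^ n) :=
    ((summable_geometric_of_lt_one (by positivity) (inv_lt_one_of_one_lt₀ hs)).mul_left C).mul_left K
  refine Summable.of_norm_bounded hg fun n => (h n).trans (mul_le_mul_of_nonneg_left ?_ hK)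
  have h1 := hC n
  have hsn : 0 < s ^ n := by positivity
  rw [inv_pow, ← div_eq_mul_inv, le_div_iff₀ hsn]
  exact h1

theorem Vc_bd {s : ℝ} (hs : 1 < s) {f : ℕ → ℂ} (hf : Gs s f) : ∃ C : ℝ, 0 ≤ C ∧ ∀ n, ‖f n‖ ≤ C := by
  obtain ⟨C, hC⟩ := hf
  have h0 : ∀ n, ‖f n‖ ≤ C := by
    intro n
    have h1 : (1 : ℝ) ≤ s ^ n := one_le_pow₀ hs.le
    calc ‖f n‖ = ‖f n‖ * 1 := (mul_one _).symm
      _ ≤ ‖f n‖ * s ^ n := mul_le_mul_of_nonneg_left h1 (norm_nonneg _)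
      _ ≤ C := hC n
  exact ⟨C, (norm_nonneg _).trans (h0 0), h0⟩

theorem formC {μ : ℂ} (hμ : ‖μ‖ < 1) {ρ : ℝ} (hρ : 0 < ρ) (h1 : ‖μ‖ < ρ ^ 2) (hρ1 : ρ < 1) {l : ℝ} (hl : |l| < 1) {N : Set ℂ}
    (hN : IsOpen N) (hK : Kp 0 1 μ ⊆ N) {F m : ℂ → ℂ} (hF : DifferentiableOn ℂ F N) (hm : DifferentiableOn ℂ m N) :
    (∫ z in Dp 0 1 μ 1, conj (m z) * F z) + RR 0 1 μ l F m ρ =
      π * ∑' n : ℕ, ((1 - ‖μ‖ ^ (2 * (n + 1)) : ℝ) : ℂ) * fc 0 1 μ F ρ (n + 1) * conj (fh l μ (fc 0 1 μ m ρ (n + 1)) n) / ((n : ℂ) + 1) := by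
  obtain ⟨s, hs, -, hE⟩ := expa hμ hρ h1 hρ1 hN hK
  have hA := (hE F hF).1
  have hM := (hE m hm).1
  obtain ⟨CM, hCM, hMb⟩ := Vc_bd hs hM
  have hx0 : ∀ n : ℕ, 0 ≤ ‖μ‖ ^ (2 * (n + 1)) := fun n => by positivity
  have hx1 : ∀ n : ℕ, ‖μ‖ ^ (2 * (n + 1)) ≤ 1 := fun n => pow_le_one₀ (norm_nonneg _) hμ.le
  have hl2 : l ^ 2 < 1 := by
    have := (sq_lt_one_iff_abs_lt_one l).2 hl
    exact this
  have hq0 : 0 < 1 - l ^ 2 := by linarith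
  have hq : ∀ n : ℕ, 1 - l ^ 2 ≤ 1 - l ^ 2 * ‖μ‖ ^ (2 * (n + 1)) := fun n => by
    nlinarith [hx1 n, sq_nonneg l]
  have hcf : ∀ n : ℕ, ‖((1 - ‖μ‖ ^ (2 * (n + 1)) : ℝ) : ℂ)‖ ≤ 1 := by
    intro n
    rw [Complex.norm_real, Real.norm_eq_abs, abs_le]
    constructor <;> linarith [hx0 n, hx1 n]
  have hn1 : ∀ n : ℕ, 1 ≤ ‖((n : ℂ) + 1)‖ := by
    intro n
    have : ((n : ℂ) + 1) = ((n + 1 : ℝ) : ℂ) := by push_cast; rfl
    rw [this, Complex.norm_real, Real.norm_eq_abs, abs_of_nonneg (by positivity)]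
    have : (0 : ℝ) ≤ n := Nat.cast_nonneg n
    linarith
  have S1 : Summable fun n : ℕ => ((1 - ‖μ‖ ^ (2 * (n + 1)) : ℝ) : ℂ) * fc 0 1 μ F ρ (n + 1) * conj (fc 0 1 μ m ρ (n + 1)) / ((n : ℂ) + 1) := by
    refine Vc_sm hs hA hCM fun n => ?_
    rw [norm_div, norm_mul, norm_mul, RCLike.norm_conj]
    calc ‖((1 - ‖μ‖ ^ (2 * (n + 1)) : ℝ) : ℂ)‖ * ‖fc 0 1 μ F ρ (n + 1)‖ * ‖fc 0 1 μ m ρ (n + 1)‖ / ‖(n : ℂ) + 1‖
        ≤ 1 * ‖fc 0 1 μ F ρ (n + 1)‖ * CM / 1 := by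
          gcongr
          · exact hcf n
          · exact hMb n
          · exact hn1 n
      _ = CM * ‖fc 0 1 μ F ρ (n + 1)‖ := by ring
  have S2 : Summable fun n : ℕ => rt l μ (fc 0 1 μ F ρ (n + 1)) (fc 0 1 μ m ρ (n + 1)) (n + 1) := by
    refine Vc_sm (K := 2 * CM / (1 - l ^ 2)) hs hA (by positivity) fun n => ?_
    have hnum : ‖(l * μ ^ (n + 1) * fc 0 1 μ m ρ (n + 1) + l ^ 2 * ‖μ‖ ^ (2 * (n + 1)) * conj (fc 0 1 μ m ρ (n + 1)) : ℂ)‖ ≤ 2 * CM := by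
      refine (norm_add_le _ _).trans ?_
      have e1 : ‖(l * μ ^ (n + 1) * fc 0 1 μ m ρ (n + 1) : ℂ)‖ ≤ 1 * 1 * CM := by
        rw [norm_mul, norm_mul, norm_pow, Complex.norm_real, Real.norm_eq_abs]
        have := hMb n
        have h2 : ‖μ‖ ^ (n + 1) ≤ 1 := pow_le_one₀ (norm_nonneg _) hμ.le
        gcongr
      have e2 : ‖(l ^ 2 * ‖μ‖ ^ (2 * (n + 1)) * conj (fc 0 1 μ m ρ (n + 1)) : ℂ)‖ ≤ 1 * 1 * CM := by
        rw [norm_mul, norm_mul, RCLike.norm_conj, norm_pow, norm_pow, Complex.norm_real, Complex.norm_real, Real.norm_eq_abs, norm_norm,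
          sq_abs]
        have := hMb n
        have h2 := hx1 n
        gcongr
      linarith
    have hden : 1 - l ^ 2 ≤ ‖(((n + 1 : ℕ) : ℂ) * ((1 - l ^ 2 * ‖μ‖ ^ (2 * (n + 1)) : ℝ) : ℂ))‖ := by
      rw [norm_mul, Complex.norm_real, Real.norm_eq_abs, abs_of_pos (hq0.trans_le (hq n))]
      have h3 := hn1 n
      have h4 := hq n
      push_cast
      calc 1 - l ^ 2 = 1 * (1 - l ^ 2) := (one_mul _).symm
        _ ≤ ‖(n : ℂ) + 1‖ * (1 - l ^ 2 * ‖μ‖ ^ (2 * (n + 1))) := by gcongr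
    rw [rt, norm_div, norm_mul, norm_mul]
    calc _ ≤ 1 * ‖fc 0 1 μ F ρ (n + 1)‖ * (2 * CM) / (1 - l ^ 2) := by
          gcongr
          exact hcf n
      _ = 2 * CM / (1 - l ^ 2) * ‖fc 0 1 μ F ρ (n + 1)‖ := by ring
  rw [area hμ hρ h1 hρ1 hN hK hF hm, RR, ← mul_add, ← Summable.tsum_add S1 S2]
  congr 1
  refine tsum_congr fun n => ?_
  have hd : ((1 - l ^ 2 * ‖μ‖ ^ (2 * (n + 1)) : ℝ) : ℂ) ≠ 0 := by
    rw [Complex.ofReal_ne_zero]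
    exact (hq0.trans_le (hq n)).ne'
  have hn0 : ((n : ℂ) + 1) ≠ 0 := by
    intro h
    have := hn1 n
    rw [h, norm_zero] at this
    linarith
  rw [rt, fh, map_div₀, map_add, map_mul, map_mul, map_pow, Complex.conj_conj, Complex.conj_conj, Complex.conj_ofReal, Complex.conj_ofReal]
  push_cast at hd ⊢
  generalize (‖μ‖ : ℂ) ^ (2 * (n + 1)) = X at hd ⊢
  generalize conj (fc 0 1 μ m ρ (n + 1)) = Mc
  generalize fc 0 1 μ m ρ (n + 1) = M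
  generalize fc 0 1 μ F ρ (n + 1) = A
  generalize μ ^ (n + 1) = Y
  generalize (n : ℂ) + 1 = k at hn0 ⊢
  rw [div_add_div _ _ hn0 (mul_ne_zero hn0 hd), mul_div_assoc', div_div, div_eq_div_iff (mul_ne_zero hn0 (mul_ne_zero hn0 hd))
    (mul_ne_zero hd hn0)]
  ring

end NV1
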