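import Pool.Agent.H1.NV.Va

/-!
ROW NV/Vd. The coefficients of `AA = (qp m)'`. `w d/dw [(qp m)(zw μ w)] = AA (zw μ w) pw μ w`; integrate by parts over the circle of radius `ρ` (`fc 0 1 μ`), then the integral of `(qp m)(zw μ w) w^(-(n+1))` does not depend on the radius in `[ρ, 1]` (Cauchy, the function is holomorphic for `‖μ‖ < ‖w‖ < s`, `expa`).
-/

set_option autoImplicit false

namespace NV1

open Complex Set Filter Topology MeasureTheory EW1 EX1 LD1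
open scoped ComplexConjugate ContDiff Real

private theorem vd_circ (r : ℝ) (hr : 0 < r) (f : ℂ → ℂ) :
    (∮ z in C(0, r), (z - 0)⁻¹ • f z) = I * ∫ t in (0 : ℝ)..(2 * π), f ((r : ℂ) * exp (t * I)) := by
  rw [circleIntegral, ← intervalIntegral.integral_const_mul]
  congr 1
  funext t
  have h0 : (r : ℂ) * exp (t * I) ≠ 0 := mul_ne_zero (ofReal_ne_zero.2 hr.ne') (exp_ne_zero _)
  rw [deriv_circleMap, circleMap_zero, sub_zero, smul_eq_mul, smul_eq_mul]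
  generalize f ((r : ℂ) * exp (t * I)) = y
  generalize (r : ℂ) * exp (t * I) = w at h0 ⊢
  have h1 : w * I * (w⁻¹ * y) = (w * w⁻¹) * (I * y) := by ring
  rw [h1, mul_inv_cancel₀ h0, one_mul]

private theorem vd_circ2 (r : ℝ) (f : ℂ → ℂ) :
    (∮ z in C(0, r), f z) = I * ∫ t in (0 : ℝ)..(2 * π), (((r : ℂ) * exp (t * I)) * f ((r : ℂ) * exp (t * I))) := by
  rw [circleIntegral, ← intervalIntegral.integral_const_mul]
  congr 1
  funext t
  rw [deriv_circleMap, circleMap_zero, smul_eq_mul]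
  ring

theorem coef {μ : ℂ} (hμ : ‖μ‖ < 1) {ρ : ℝ} (hρ : 0 < ρ) (h1 : ‖μ‖ < ρ ^ 2) (hρ1 : ρ < 1) {N : Set ℂ}
    (hN : IsOpen N) (hK : Kp 0 1 μ ⊆ N) {m : ℂ → ℂ} (hm : DifferentiableOn ℂ m N) (a b c : ℂ) (n : ℕ) :
    fc 0 1 μ (AA a b c m) ρ (n + 1) =
      ((n : ℂ) + 1) * ((∫ t in (0 : ℝ)..(2 * π), qp a b c (zw μ (ee t)) * m (zw μ (ee t)) * (ee t)⁻¹ ^ (n + 1)) / (2 * π)) := by
  obtain ⟨s, hs, hsN, -⟩ := expa hμ hρ h1 hρ1 hN hK
  have hreg : ∀ w : ℂ, ρ ≤ ‖w‖ → ‖w‖ ≤ 1 → zw μ w ∈ N ∧ w ≠ 0 := by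
    intro w hw1 hw2
    have hw0 : 0 < ‖w‖ := lt_of_lt_of_le hρ hw1
    refine ⟨hsN w ?_ (by linarith), norm_pos_iff.1 hw0⟩
    have h2 : ρ ^ 2 ≤ ρ := by nlinarith
    have h3 : ‖w‖ ≤ ‖w‖ * s := by nlinarith
    linarith
  have hzw : ∀ w : ℂ, w ≠ 0 → HasDerivAt (zw μ) (1 + μ * (-(w ^ 2)⁻¹)) w := by
    intro w hw
    exact (hasDerivAt_id w).add ((hasDerivAt_inv hw).const_mul μ)
  have hqp : ∀ z : ℂ, HasDerivAt (qp a b c) (qd b c z) z := by
    intro z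
    have h2 := (((hasDerivAt_id z).const_mul b).const_add a).add ((hasDerivAt_pow 2 z).const_mul c)
    refine HasDerivAt.congr_deriv h2 ?_
    unfold qd
    push_cast
    ring
  have hmd : ∀ z ∈ N, HasDerivAt m (deriv m z) z := fun z hz =>
    (hm.differentiableAt (hN.mem_nhds hz)).hasDerivAt
  have hqm : ∀ z ∈ N, HasDerivAt (fun z => qp a b c z * m z) (AA a b c m z) z := by
    intro z hz
    exact (hqp z).mul (hmd z hz)
  have hG : ∀ w : ℂ, ρ ≤ ‖w‖ → ‖w‖ ≤ 1 →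
      HasDerivAt (fun w => qp a b c (zw μ w) * m (zw μ w)) (AA a b c m (zw μ w) * (1 + μ * (-(w ^ 2)⁻¹))) w := by
    intro w hw1 hw2
    obtain ⟨h2, h3⟩ := hreg w hw1 hw2
    exact (hqm _ h2).comp w (hzw w h3)
  have hf : ∀ w : ℂ, ρ ≤ ‖w‖ → ‖w‖ ≤ 1 →
      HasDerivAt (fun w => qp a b c (zw μ w) * m (zw μ w) * w⁻¹ ^ (n + 1))
        ((AA a b c m (zw μ w) * (1 + μ * (-(w ^ 2)⁻¹))) * w⁻¹ ^ (n + 1) +
          (qp a b c (zw μ w) * m (zw μ w)) * (((n + 1 : ℕ) : ℂ) * w⁻¹ ^ n * (-(w ^ 2)⁻¹))) w := by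
    intro w hw1 hw2
    have h3 := (hreg w hw1 hw2).2
    exact (hG w hw1 hw2).mul ((hasDerivAt_inv h3).pow (n + 1))
  -- integration by parts
  have hA : (∮ w in C(0, ρ), ((AA a b c m (zw μ w) * (1 + μ * (-(w ^ 2)⁻¹))) * w⁻¹ ^ (n + 1) +
          (qp a b c (zw μ w) * m (zw μ w)) * (((n + 1 : ℕ) : ℂ) * w⁻¹ ^ n * (-(w ^ 2)⁻¹)))) = 0 := by
    apply circleIntegral.integral_eq_zero_of_hasDerivWithinAt hρ.le
    intro w hw
    rw [mem_sphere_zero_iff_norm] at hw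
    exact (hf w hw.ge (by linarith)).hasDerivWithinAt
  rw [vd_circ2] at hA
  have hA2 := (mul_eq_zero.1 hA).resolve_left I_ne_zero
  -- continuity
  have hWn : ∀ t : ℝ, ‖(ρ : ℂ) * exp (t * I)‖ = ρ := by
    intro t
    rw [norm_mul, norm_exp_ofReal_mul_I, mul_one, norm_real, Real.norm_of_nonneg hρ.le]
  have hW0 : ∀ t : ℝ, (ρ : ℂ) * exp (t * I) ≠ 0 := fun t =>
    mul_ne_zero (ofReal_ne_zero.2 hρ.ne') (exp_ne_zero _)
  have hWc : Continuous (fun t : ℝ => (ρ : ℂ) * exp (t * I)) := by fun_prop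
  have hWi : Continuous (fun t : ℝ => ((ρ : ℂ) * exp (t * I))⁻¹) := hWc.inv₀ hW0
  have hzc : Continuous (fun t : ℝ => zw μ ((ρ : ℂ) * exp (t * I))) := by
    unfold zw
    exact hWc.add (continuous_const.mul hWi)
  have hmem : ∀ t : ℝ, zw μ ((ρ : ℂ) * exp (t * I)) ∈ N := fun t =>
    (hreg _ (hWn t).ge (by rw [hWn t]; exact hρ1.le)).1
  have hmc : Continuous (fun t : ℝ => m (zw μ ((ρ : ℂ) * exp (t * I)))) :=
    hm.continuousOn.comp_continuous hzc hmem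
  have hdc : Continuous (fun t : ℝ => deriv m (zw μ ((ρ : ℂ) * exp (t * I)))) :=
    (hm.deriv hN).continuousOn.comp_continuous hzc hmem
  have hqc : Continuous (fun t : ℝ => qp a b c (zw μ ((ρ : ℂ) * exp (t * I)))) := by
    unfold qp
    fun_prop
  have hqdc : Continuous (fun t : ℝ => qd b c (zw μ ((ρ : ℂ) * exp (t * I)))) := by
    unfold qd
    fun_prop
  have hAc : Continuous (fun t : ℝ => AA a b c m (zw μ ((ρ : ℂ) * exp (t * I)))) := by
    unfold AA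
    exact (hqdc.mul hmc).add (hqc.mul hdc)
  have hpc : Continuous (fun t : ℝ => pw μ ((ρ : ℂ) * exp (t * I))) := by
    unfold pw
    exact hWc.sub (continuous_const.mul hWi)
  have hc1 : Continuous (fun t : ℝ => AA a b c m (zw μ ((ρ : ℂ) * exp (t * I))) * pw μ ((ρ : ℂ) * exp (t * I)) *
      ((ρ : ℂ) * exp (t * I))⁻¹ ^ (n + 1)) := (hAc.mul hpc).mul (hWi.pow _)
  have hc2 : Continuous (fun t : ℝ => qp a b c (zw μ ((ρ : ℂ) * exp (t * I))) * m (zw μ ((ρ : ℂ) * exp (t * I))) *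
      ((ρ : ℂ) * exp (t * I))⁻¹ ^ (n + 1)) := (hqc.mul hmc).mul (hWi.pow _)
  have hc3 : Continuous (fun t : ℝ => ((n : ℂ) + 1) * (qp a b c (zw μ ((ρ : ℂ) * exp (t * I))) * m (zw μ ((ρ : ℂ) * exp (t * I))) *
      ((ρ : ℂ) * exp (t * I))⁻¹ ^ (n + 1))) := continuous_const.mul hc2
  have hB : (∫ t in (0 : ℝ)..(2 * π), AA a b c m (zw μ ((ρ : ℂ) * exp (t * I))) * pw μ ((ρ : ℂ) * exp (t * I)) *
      ((ρ : ℂ) * exp (t * I))⁻¹ ^ (n + 1)) =
      ((n : ℂ) + 1) * ∫ t in (0 : ℝ)..(2 * π), qp a b c (zw μ ((ρ : ℂ) * exp (t * I))) * m (zw μ ((ρ : ℂ) * exp (t * I))) *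
      ((ρ : ℂ) * exp (t * I))⁻¹ ^ (n + 1) := by
    rw [← sub_eq_zero, ← intervalIntegral.integral_const_mul, ← intervalIntegral.integral_sub
      (hc1.intervalIntegrable _ _) (hc3.intervalIntegrable _ _)]
    rw [← hA2]
    congr 1
    funext t
    have h0 := hW0 t
    generalize (ρ : ℂ) * exp (t * I) = w at h0 ⊢
    unfold pw
    push_cast
    have e0 : w * (w ^ 2)⁻¹ = w⁻¹ := by
      rw [pow_two, mul_inv, ← mul_assoc, mul_inv_cancel₀ h0, one_mul]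
    have e1 : w * (1 + μ * (-(w ^ 2)⁻¹)) = w - μ * w⁻¹ := by
      linear_combination (-μ) * e0
    have e2 : w * (w⁻¹ ^ n * (-(w ^ 2)⁻¹)) = - w⁻¹ ^ (n + 1) := by
      rw [pow_succ]
      linear_combination (- w⁻¹ ^ n) * e0
    linear_combination (- AA a b c m (zw μ w) * w⁻¹ ^ (n + 1)) * e1 -
      (qp a b c (zw μ w) * m (zw μ w) * ((n : ℂ) + 1)) * e2
  -- independence of the radius
  have hC := Complex.circleIntegral_sub_center_inv_smul_eq_of_differentiable_on_annulus_off_countable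
    (c := 0) (r := ρ) (R := 1) hρ hρ1.le (f := fun w => qp a b c (zw μ w) * m (zw μ w) * w⁻¹ ^ (n + 1))
    (s := ∅) Set.countable_empty
    (by
      intro w hw
      have h2 : ‖w‖ ≤ 1 := by simpa using hw.1
      have h3 : ρ ≤ ‖w‖ := by simpa using hw.2
      exact (hf w h3 h2).continuousAt.continuousWithinAt)
    (by
      intro w hw
      have h2 : ‖w‖ < 1 := by simpa using hw.1.1
      have h3 : ρ < ‖w‖ := by simpa using hw.1.2
      exact (hf w h3.le h2.le).differentiableAt)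
  rw [vd_circ 1 one_pos, vd_circ ρ hρ] at hC
  have hC2 := mul_left_cancel₀ I_ne_zero hC
  have hfc : fc 0 1 μ (AA a b c m) ρ (n + 1) = (∫ t in (0 : ℝ)..(2 * π), AA a b c m (zw μ ((ρ : ℂ) * exp (t * I))) * pw μ ((ρ : ℂ) * exp (t * I)) *
      ((ρ : ℂ) * exp (t * I))⁻¹ ^ (n + 1)) / (2 * π) := by
    unfold fc zw pw
    simp only [zero_add, ofReal_one, one_mul]
  rw [hfc, hB, mul_div_assoc]
  congr 2
  rw [← hC2]
  congr 1
  funext t
  unfold ee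
  simp only [ofReal_one, one_mul]

end NV1
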