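import Pool.Agent.H1.NV.D

/-!
ROW NV/Ve. Exchange of sum and integral (the series converges absolutely and uniformly, `s > 1`).
-/

set_option autoImplicit false

namespace NV1

open Complex Set Filter Topology MeasureTheory EW1 EX1 LD1
open scoped ComplexConjugate ContDiff Real

private theorem ve_ee (t : ℝ) : ‖(ee t)⁻¹‖ = 1 := by
  unfold ee
  rw [norm_inv, norm_exp_ofReal_mul_I, inv_one]

private theorem ve_cont : Continuous (fun t : ℝ => (ee t)⁻¹) := by
  unfold ee
  refine Continuous.inv₀ (by fun_prop) (fun t => exp_ne_zero _)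

theorem swap {s : ℝ} (hs : 1 < s) {b : ℕ → ℂ} (hb : Gs s b) {h : ℝ → ℂ} (hh : Continuous h) :
    Summable b ∧ Continuous (fun t : ℝ => ∑' n : ℕ, b n * (ee t)⁻¹ ^ (n + 1)) ∧
    ∑' n : ℕ, ((∫ t in (0 : ℝ)..(2 * π), h t * (ee t)⁻¹ ^ (n + 1)) / (2 * π)) * b n =
      (∫ t in (0 : ℝ)..(2 * π), h t * ∑' n : ℕ, b n * (ee t)⁻¹ ^ (n + 1)) / (2 * π) := by
  obtain ⟨C, hC⟩ := hb
  have hs0 : 0 < s := by linarith
  have hbd : ∀ n, ‖b n‖ ≤ C * (s⁻¹) ^ n := by
    intro n
    have h1 := hC n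
    have h2 : 0 < s ^ n := pow_pos hs0 n
    rw [inv_pow, ← div_eq_mul_inv, le_div_iff₀ h2]
    exact h1
  have hgeo : Summable (fun n : ℕ => C * (s⁻¹) ^ n) :=
    (summable_geometric_of_lt_one (by positivity) (inv_lt_one_of_one_lt₀ hs)).mul_left C
  have hnorm : Summable (fun n => ‖b n‖) := Summable.of_nonneg_of_le (fun n => norm_nonneg _) hbd hgeo
  have hterm : ∀ (n : ℕ) (t : ℝ), ‖b n * (ee t)⁻¹ ^ (n + 1)‖ = ‖b n‖ := by
    intro n t
    rw [norm_mul, norm_pow, ve_ee, one_pow, mul_one]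
  have hsumt : ∀ t : ℝ, Summable (fun n : ℕ => b n * (ee t)⁻¹ ^ (n + 1)) := by
    intro t
    refine Summable.of_norm ?_
    simp_rw [hterm]
    exact hnorm
  refine ⟨hnorm.of_norm, ?_, ?_⟩
  · refine continuous_tsum (fun n => continuous_const.mul (ve_cont.pow _)) hnorm (fun n t => ?_)
    rw [hterm]
  · have key : HasSum (fun n : ℕ => ∫ t in (0 : ℝ)..(2 * π), h t * (b n * (ee t)⁻¹ ^ (n + 1)))
        (∫ t in (0 : ℝ)..(2 * π), h t * ∑' n : ℕ, b n * (ee t)⁻¹ ^ (n + 1)) := by
      refine intervalIntegral.hasSum_integral_of_dominated_convergence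
        (bound := fun n t => ‖h t‖ * ‖b n‖) ?_ ?_ ?_ ?_ ?_
      · intro n
        exact (hh.mul (continuous_const.mul (ve_cont.pow _))).aestronglyMeasurable
      · intro n
        refine Filter.Eventually.of_forall (fun t _ => ?_)
        rw [norm_mul, hterm]
      · exact Filter.Eventually.of_forall (fun t _ => hnorm.mul_left _)
      · simp_rw [tsum_mul_left]
        exact (hh.norm.mul continuous_const).intervalIntegrable _ _
      · exact Filter.Eventually.of_forall (fun t _ => (hsumt t).hasSum.mul_left _)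
    rw [← key.tsum_eq, ← tsum_div_const]
    refine tsum_congr (fun n => ?_)
    have h1 : (fun t : ℝ => h t * (b n * (ee t)⁻¹ ^ (n + 1))) =
        (fun t : ℝ => b n * (h t * (ee t)⁻¹ ^ (n + 1))) := by
      funext t
      ring
    rw [h1, intervalIntegral.integral_const_mul]
    ring

end NV1
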