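import Pool.Agent.H1.NV.D

/-!
Symmetry. On the unit circle the partial sums of `sE` are `pw` times a polynomial in `zw`, so the integrals of the partial
sums are integrals of an exact derivative over a closed curve; dominated convergence.
-/

set_option autoImplicit false

namespace NV1

open Complex Set Filter Topology MeasureTheory EW1 EX1 LD1
open scoped ComplexConjugate ContDiff Real

theorem Vf_ee_ne (t : ℝ) : ee t ≠ 0 := Complex.exp_ne_zero _

theorem Vf_ee_norm (t : ℝ) : ‖ee t‖ = 1 := Complex.norm_exp_ofReal_mul_I t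

theorem Vf_ee_cont : Continuous ee := by
  unfold ee
  fun_prop

theorem Vf_ee_inv_cont : Continuous fun t : ℝ => (ee t)⁻¹ := Vf_ee_cont.inv₀ Vf_ee_ne

theorem Vf_zw_cont (μ : ℂ) : Continuous fun t : ℝ => zw μ (ee t) := by
  unfold zw
  exact Vf_ee_cont.add (continuous_const.mul Vf_ee_inv_cont)

theorem Vf_pw_cont (μ : ℂ) : Continuous fun t : ℝ => pw μ (ee t) := by
  unfold pw
  exact Vf_ee_cont.sub (continuous_const.mul Vf_ee_inv_cont)

theorem Vf_pw_ne {μ : ℂ} (hμ : ‖μ‖ < 1) (t : ℝ) : pw μ (ee t) ≠ 0 := by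
  intro h
  have h1 : ee t = μ * (ee t)⁻¹ := sub_eq_zero.1 h
  have h2 := congrArg norm h1
  rw [norm_mul, norm_inv, Vf_ee_norm, inv_one, mul_one] at h2
  linarith

/-- polynomials in `zw` -/
noncomputable def Vf_p (μ : ℂ) : ℕ → Polynomial ℂ
  | 0 => 1
  | 1 => Polynomial.X
  | n + 2 => Polynomial.X * Vf_p μ (n + 1) - Polynomial.C μ * Vf_p μ n

theorem Vf_p_eval {μ w : ℂ} (hw : w ≠ 0) (n : ℕ) :
    w ^ (n + 1) - (μ * w⁻¹) ^ (n + 1) = pw μ w * (Vf_p μ n).eval (zw μ w) := by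
  have hxy : w * (μ * w⁻¹) = μ := by field_simp
  have key : ∀ n, w ^ (n + 1) - (μ * w⁻¹) ^ (n + 1) = pw μ w * (Vf_p μ n).eval (zw μ w) ∧
      w ^ (n + 2) - (μ * w⁻¹) ^ (n + 2) = pw μ w * (Vf_p μ (n + 1)).eval (zw μ w) := by
    intro n
    induction n with
    | zero =>
      refine ⟨?_, ?_⟩
      · simp [Vf_p, pw]
      · simp only [Vf_p, pw, zw, Polynomial.eval_X]
        ring
    | succ n ih =>
      refine ⟨ih.2, ?_⟩
      have e : (Vf_p μ (n + 1 + 1)).eval (zw μ w) =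
          zw μ w * (Vf_p μ (n + 1)).eval (zw μ w) - μ * (Vf_p μ n).eval (zw μ w) := by
        show (Polynomial.X * Vf_p μ (n + 1) - Polynomial.C μ * Vf_p μ n).eval (zw μ w) = _
        simp
      rw [e]
      have e2 : pw μ w * (zw μ w * (Vf_p μ (n + 1)).eval (zw μ w) - μ * (Vf_p μ n).eval (zw μ w)) =
          zw μ w * (pw μ w * (Vf_p μ (n + 1)).eval (zw μ w)) - μ * (pw μ w * (Vf_p μ n).eval (zw μ w)) := by ring
      rw [e2, ← ih.1, ← ih.2]
      unfold zw
      generalize μ * w⁻¹ = x at hxy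
      rw [← hxy]
      ring
  exact (key n).1

theorem Vf_zw_deriv (μ : ℂ) (t : ℝ) : HasDerivAt (fun t : ℝ => zw μ (ee t)) (I * pw μ (ee t)) t := by
  have h1 : HasDerivAt ee (I * ee t) t := by
    have h2 : HasDerivAt (fun t : ℝ => (t : ℂ) * I) I t := by
      simpa using (Complex.ofRealCLM.hasDerivAt (x := t)).mul_const I
    have h3 := h2.cexp
    exact h3.congr_deriv (by unfold ee; ring)
  have h4 : HasDerivAt (fun t : ℝ => (ee t)⁻¹) (-(I * (ee t)⁻¹)) t := by
    have h5 := h1.fun_inv (Vf_ee_ne t)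
    refine h5.congr_deriv ?_
    have := Vf_ee_ne t
    field_simp
  have h6 := h1.add (h4.const_mul μ)
  refine h6.congr_deriv ?_
  unfold pw
  ring

theorem Vf_int (μ : ℂ) (H : Polynomial ℂ) :
    ∫ t in (0 : ℝ)..(2 * π), pw μ (ee t) * H.eval (zw μ (ee t)) = 0 := by
  have hc : ∀ H : Polynomial ℂ, Continuous fun t : ℝ => pw μ (ee t) * H.eval (zw μ (ee t)) := fun H =>
    (Vf_pw_cont μ).mul (H.continuous.comp (Vf_zw_cont μ))
  induction H using Polynomial.induction_on' with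
  | add p q hp hq =>
    simp only [Polynomial.eval_add, mul_add]
    rw [intervalIntegral.integral_add ((hc p).intervalIntegrable _ _) ((hc q).intervalIntegrable _ _), hp, hq, add_zero]
  | monomial n c =>
    have hn : ((n : ℂ) + 1) ≠ 0 := by exact_mod_cast Nat.succ_ne_zero n
    have h1 : ∀ t ∈ Set.uIcc (0 : ℝ) (2 * π), HasDerivAt
        (fun t : ℝ => c / ((n : ℂ) + 1) / I * zw μ (ee t) ^ (n + 1))
        (pw μ (ee t) * (Polynomial.monomial n c).eval (zw μ (ee t))) t := by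
      intro t _
      have h2 := ((Vf_zw_deriv μ t).fun_pow (n + 1)).const_mul (c / ((n : ℂ) + 1) / I)
      refine h2.congr_deriv ?_
      rw [Polynomial.eval_monomial]
      push_cast
      have hI := Complex.I_ne_zero
      field_simp
    rw [intervalIntegral.integral_eq_sub_of_hasDerivAt h1 ((hc _).intervalIntegrable _ _)]
    have e1 : ee (2 * π) = ee 0 := by
      unfold ee
      push_cast
      rw [Complex.exp_two_pi_mul_I]
      simp
    rw [e1, sub_self]

theorem antis {μ : ℂ} (hμ : ‖μ‖ < 1) {s : ℝ} (hs : 1 < s) {f : ℕ → ℂ} (hf : Gs s f) (a b c : ℂ) :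
    Continuous (fun t : ℝ => sE μ f (ee t)) ∧
    ∫ t in (0 : ℝ)..(2 * π), qp a b c (zw μ (ee t)) / pw μ (ee t) * sE μ f (ee t) ^ 2 = 0 := by
  obtain ⟨C, hC⟩ := hf
  have hs0 : 0 < s := by linarith
  have hC0 : 0 ≤ C := by
    have := hC 0
    rw [pow_zero, mul_one] at this
    exact (norm_nonneg _).trans this
  have hfn : ∀ n, ‖f n‖ ≤ C * s⁻¹ ^ n := by
    intro n
    have := hC n
    rw [inv_pow, ← div_eq_mul_inv, le_div_iff₀ (by positivity)]
    exact this
  have hsum : Summable fun n : ℕ => 2 * (C * s⁻¹ ^ n) :=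
    ((summable_geometric_of_lt_one (by positivity) (inv_lt_one_of_one_lt₀ hs)).mul_left C).mul_left 2
  have hb : ∀ n (t : ℝ), ‖f n * (ee t ^ (n + 1) - (μ * (ee t)⁻¹) ^ (n + 1))‖ ≤ 2 * (C * s⁻¹ ^ n) := by
    intro n t
    rw [norm_mul]
    have h1 : ‖ee t ^ (n + 1) - (μ * (ee t)⁻¹) ^ (n + 1)‖ ≤ 2 := by
      refine (norm_sub_le _ _).trans ?_
      rw [norm_pow, norm_pow, norm_mul, norm_inv, Vf_ee_norm, inv_one, mul_one, one_pow]
      have : ‖μ‖ ^ (n + 1) ≤ 1 := pow_le_one₀ (norm_nonneg _) hμ.le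
      linarith
    calc ‖f n‖ * ‖ee t ^ (n + 1) - (μ * (ee t)⁻¹) ^ (n + 1)‖ ≤ (C * s⁻¹ ^ n) * 2 :=
          mul_le_mul (hfn n) h1 (norm_nonneg _) (by positivity)
      _ = 2 * (C * s⁻¹ ^ n) := by ring
  have hcn : ∀ n, Continuous fun t : ℝ => f n * (ee t ^ (n + 1) - (μ * (ee t)⁻¹) ^ (n + 1)) := fun n =>
    continuous_const.mul ((Vf_ee_cont.pow _).sub ((continuous_const.mul Vf_ee_inv_cont).pow _))
  have hcont : Continuous fun t : ℝ => sE μ f (ee t) := by
    unfold sE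
    exact continuous_tsum hcn hsum hb
  refine ⟨hcont, ?_⟩
  -- the partial sums
  obtain ⟨B, hB⟩ : ∃ B : ℝ, B = ∑' n : ℕ, 2 * (C * s⁻¹ ^ n) := ⟨_, rfl⟩
  have hSb : ∀ N (t : ℝ), ‖∑ n ∈ Finset.range N, f n * (ee t ^ (n + 1) - (μ * (ee t)⁻¹) ^ (n + 1))‖ ≤ B := by
    intro N t
    refine (norm_sum_le _ _).trans ((Finset.sum_le_sum fun n _ => hb n t).trans ?_)
    rw [hB]
    exact hsum.sum_le_tsum _ fun n _ => by positivity
  have hSl : ∀ t : ℝ, Tendsto (fun N => ∑ n ∈ Finset.range N, f n * (ee t ^ (n + 1) - (μ * (ee t)⁻¹) ^ (n + 1)))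
      atTop (𝓝 (sE μ f (ee t))) := by
    intro t
    have h1 : Summable fun n => f n * (ee t ^ (n + 1) - (μ * (ee t)⁻¹) ^ (n + 1)) :=
      Summable.of_norm_bounded hsum fun n => hb n t
    exact h1.hasSum.tendsto_sum_nat
  have hq : Continuous fun t : ℝ => qp a b c (zw μ (ee t)) / pw μ (ee t) := by
    refine Continuous.div ?_ (Vf_pw_cont μ) (Vf_pw_ne hμ)
    unfold qp
    exact (continuous_const.add (continuous_const.mul (Vf_zw_cont μ))).add
      (continuous_const.mul ((Vf_zw_cont μ).pow 2))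
  have hlim : Tendsto (fun N => ∫ t in (0 : ℝ)..(2 * π), qp a b c (zw μ (ee t)) / pw μ (ee t) *
      (∑ n ∈ Finset.range N, f n * (ee t ^ (n + 1) - (μ * (ee t)⁻¹) ^ (n + 1))) ^ 2) atTop
      (𝓝 (∫ t in (0 : ℝ)..(2 * π), qp a b c (zw μ (ee t)) / pw μ (ee t) * sE μ f (ee t) ^ 2)) := by
    refine intervalIntegral.tendsto_integral_filter_of_dominated_convergence
      (fun t => ‖qp a b c (zw μ (ee t)) / pw μ (ee t)‖ * B ^ 2) ?_ ?_ ?_ ?_
    · refine Eventually.of_forall fun N => ?_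
      have h1 : Continuous fun t : ℝ => qp a b c (zw μ (ee t)) / pw μ (ee t) *
          (∑ n ∈ Finset.range N, f n * (ee t ^ (n + 1) - (μ * (ee t)⁻¹) ^ (n + 1))) ^ 2 :=
        hq.mul ((continuous_finsetSum _ fun n _ => hcn n).pow 2)
      exact h1.aestronglyMeasurable
    · refine Eventually.of_forall fun N => Eventually.of_forall fun t _ => ?_
      rw [norm_mul, norm_pow]
      have := hSb N t
      gcongr
    · exact (hq.norm.mul continuous_const).intervalIntegrable _ _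
    · exact Eventually.of_forall fun t _ => ((hSl t).pow 2).const_mul _
  have hz : ∀ N, ∫ t in (0 : ℝ)..(2 * π), qp a b c (zw μ (ee t)) / pw μ (ee t) *
      (∑ n ∈ Finset.range N, f n * (ee t ^ (n + 1) - (μ * (ee t)⁻¹) ^ (n + 1))) ^ 2 = 0 := by
    intro N
    obtain ⟨h, hh⟩ : ∃ h : Polynomial ℂ, h = ∑ n ∈ Finset.range N, Polynomial.C (f n) * Vf_p μ n := ⟨_, rfl⟩
    obtain ⟨Q, hQ⟩ : ∃ Q : Polynomial ℂ, Q = Polynomial.C a + Polynomial.C b * Polynomial.X +
      Polynomial.C c * Polynomial.X ^ 2 := ⟨_, rfl⟩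
    rw [← Vf_int μ (Q * h ^ 2)]
    refine intervalIntegral.integral_congr fun t _ => ?_
    show qp a b c (zw μ (ee t)) / pw μ (ee t) *
      (∑ n ∈ Finset.range N, f n * (ee t ^ (n + 1) - (μ * (ee t)⁻¹) ^ (n + 1))) ^ 2 =
      pw μ (ee t) * (Q * h ^ 2).eval (zw μ (ee t))
    have e1 : ∑ n ∈ Finset.range N, f n * (ee t ^ (n + 1) - (μ * (ee t)⁻¹) ^ (n + 1)) =
        pw μ (ee t) * h.eval (zw μ (ee t)) := by
      rw [hh, Polynomial.eval_finsetSum, Finset.mul_sum]
      refine Finset.sum_congr rfl fun n _ => ?_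
      rw [Vf_p_eval (Vf_ee_ne t), Polynomial.eval_mul, Polynomial.eval_C]
      ring
    have e2 : Q.eval (zw μ (ee t)) = qp a b c (zw μ (ee t)) := by
      rw [hQ]
      simp [qp]
    rw [e1, Polynomial.eval_mul, Polynomial.eval_pow, e2]
    have := Vf_pw_ne hμ t
    field_simp
  refine tendsto_nhds_unique hlim ?_
  simp only [hz]
  exact tendsto_const_nhds

end NV1
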