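import Pool.Agent.H1.NV.D

/-!
ROW NV/Vg. The exterior part. With `ζ = 1/w`, `‖ζ‖ ≤ 1`: the integrand is `ζ P(ζ)² (c (1 + μ ζ²)² + b ζ (1 + μ ζ²) + a ζ²) / (1 - μ ζ²)`, `P(ζ) = ∑ g_n ζ^n`, holomorphic for `‖ζ‖ < s`, `‖ζ‖² ‖μ‖ < 1`, zero at `ζ = 0`: mean value property.
-/

set_option autoImplicit false

namespace NV1

open Complex Set Filter Topology MeasureTheory EW1 EX1 LD1
open scoped ComplexConjugate ContDiff Real

private theorem Vg_P {s r : ℝ} (hr : 0 < r) (hrs : r < s) {g : ℕ → ℂ} (hg : Gs s g) :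
    DifferentiableOn ℂ (fun ζ => ∑' n : ℕ, g n * ζ ^ n) (Metric.ball 0 r) := by
  obtain ⟨C, hC⟩ := hg
  have hs : 0 < s := hr.trans hrs
  have hC0 : 0 ≤ C := by
    have := hC 0
    rw [pow_zero, mul_one] at this
    exact (norm_nonneg _).trans this
  refine differentiableOn_tsum_of_summable_norm (u := fun n => C * (r / s) ^ n)
    ((summable_geometric_of_lt_one (by positivity) ((div_lt_one hs).2 hrs)).mul_left C)
    (fun n => ((differentiable_id.pow n).const_mul (g n)).differentiableOn) Metric.isOpen_ball fun n ζ hζ => ?_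
  rw [Metric.mem_ball, dist_zero_right] at hζ
  rw [norm_mul, norm_pow, div_pow, mul_div_assoc', le_div_iff₀ (by positivity)]
  calc ‖g n‖ * ‖ζ‖ ^ n * s ^ n = (‖g n‖ * s ^ n) * ‖ζ‖ ^ n := by ring
    _ ≤ C * r ^ n := by
      have h1 := hC n
      gcongr

theorem outer {μ : ℂ} (hμ : ‖μ‖ < 1) {s : ℝ} (hs : 1 < s) {g : ℕ → ℂ} (hg : Gs s g) (a b c : ℂ) :
    ∫ t in (0 : ℝ)..(2 * π), qp a b c (zw μ (ee t)) / pw μ (ee t) * (∑' n : ℕ, g n * (ee t)⁻¹ ^ (n + 1)) ^ 2 = 0 := by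
  set P : ℂ → ℂ := fun ζ => ∑' n : ℕ, g n * ζ ^ n with hP
  set K : ℂ → ℂ := fun ζ => P ζ ^ 2 * (c * (1 + μ * ζ ^ 2) ^ 2 + b * ζ * (1 + μ * ζ ^ 2) + a * ζ ^ 2) / (1 - μ * ζ ^ 2) with hK
  have hne : ∀ ζ : ℂ, ‖ζ‖ ≤ 1 → 1 - μ * ζ ^ 2 ≠ 0 := by
    intro ζ hζ h
    have h1 : μ * ζ ^ 2 = 1 := (sub_eq_zero.1 h).symm
    have h2 := congrArg norm h1
    rw [norm_mul, norm_pow, norm_one] at h2
    have h3 : ‖μ‖ * ‖ζ‖ ^ 2 ≤ ‖μ‖ * 1 := by
      apply mul_le_mul_of_nonneg_left _ (norm_nonneg μ)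
      exact pow_le_one₀ (norm_nonneg ζ) hζ
    linarith
  have hr1 : (1 : ℝ) < (1 + s) / 2 := by linarith
  have hPd := Vg_P (r := (1 + s) / 2) (by linarith) (by linarith) hg
  have hd : ∀ ζ : ℂ, ‖ζ‖ ≤ 1 → DifferentiableAt ℂ K ζ := by
    intro ζ hζ
    have h1 : DifferentiableAt ℂ P ζ := hPd.differentiableAt (Metric.isOpen_ball.mem_nhds (by
      rw [Metric.mem_ball, dist_zero_right]
      exact hζ.trans_lt hr1))
    have h2 : DifferentiableAt ℂ (fun ζ : ℂ => c * (1 + μ * ζ ^ 2) ^ 2 + b * ζ * (1 + μ * ζ ^ 2) + a * ζ ^ 2) ζ := by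
      fun_prop
    have h3 : DifferentiableAt ℂ (fun ζ : ℂ => 1 - μ * ζ ^ 2) ζ := by fun_prop
    exact ((h1.pow 2).mul h2).div h3 (hne ζ hζ)
  have hcau : (∮ z in C(0, 1), K z) = 0 := by
    refine Complex.circleIntegral_eq_zero_of_differentiable_on_off_countable zero_le_one Set.countable_empty
      (fun z hz => ?_) fun z hz => ?_
    · rw [Metric.mem_closedBall, dist_zero_right] at hz
      exact (hd z hz).continuousAt.continuousWithinAt
    · have h1 := hz.1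
      rw [Metric.mem_ball, dist_zero_right] at h1
      exact hd z h1.le
  have hint : ∀ t : ℝ, qp a b c (zw μ (ee t)) / pw μ (ee t) * (∑' n : ℕ, g n * (ee t)⁻¹ ^ (n + 1)) ^ 2 =
      (fun x : ℝ => exp (x * I) * K (exp (x * I))) (2 * π - t) := by
    intro t
    have h0 : exp (((2 * π - t : ℝ) : ℂ) * I) = (ee t)⁻¹ := by
      unfold ee
      rw [← Complex.exp_neg]
      have h1 : ((2 * π - t : ℝ) : ℂ) * I = -(t * I) + 2 * π * I := by
        push_cast
        ring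
      rw [h1, Complex.exp_add, Complex.exp_two_pi_mul_I, mul_one]
    show _ = exp (((2 * π - t : ℝ) : ℂ) * I) * K (exp (((2 * π - t : ℝ) : ℂ) * I))
    rw [h0]
    have hw : ee t ≠ 0 := Complex.exp_ne_zero _
    have hwn : ‖ee t‖ = 1 := by
      unfold ee
      exact Complex.norm_exp_ofReal_mul_I t
    obtain ⟨ζ, hζ⟩ : ∃ ζ : ℂ, ζ = (ee t)⁻¹ := ⟨_, rfl⟩
    have hζ0 : ζ ≠ 0 := by
      rw [hζ]
      exact inv_ne_zero hw
    have hζn : ‖ζ‖ ≤ 1 := by
      rw [hζ, norm_inv, hwn, inv_one]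
    have hwζ : ee t = ζ⁻¹ := by rw [hζ, inv_inv]
    rw [← hζ]
    have h1 : (∑' n : ℕ, g n * ζ ^ (n + 1)) = ζ * P ζ := by
      simp only [hP]
      rw [← tsum_mul_left]
      refine tsum_congr fun n => ?_
      ring
    have h2 : pw μ (ee t) = ζ⁻¹ * (1 - μ * ζ ^ 2) := by
      unfold pw
      rw [hwζ, inv_inv]
      field_simp
    have h3 : zw μ (ee t) = ζ⁻¹ * (1 + μ * ζ ^ 2) := by
      unfold zw
      rw [hwζ, inv_inv]
      field_simp
    have h4 := hne ζ hζn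
    rw [h1, h2, h3]
    simp only [hK]
    unfold qp
    field_simp
    ring
  rw [intervalIntegral.integral_congr (fun t _ => hint t),
    intervalIntegral.integral_comp_sub_left (fun x : ℝ => exp (x * I) * K (exp (x * I)))]
  rw [sub_self, sub_zero]
  have h5 : (∮ z in C(0, 1), K z) = I * ∫ x in (0 : ℝ)..(2 * π), exp (x * I) * K (exp (x * I)) := by
    unfold circleIntegral
    rw [← intervalIntegral.integral_const_mul]
    refine intervalIntegral.integral_congr fun x _ => ?_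
    show deriv (circleMap 0 1) x • K (circleMap 0 1 x) = _
    rw [deriv_circleMap, smul_eq_mul]
    have h6 : circleMap 0 1 x = exp (x * I) := by
      unfold circleMap
      simp
    rw [h6]
    ring
  rw [hcau] at h5
  exact (mul_eq_zero.1 h5.symm).resolve_left I_ne_zero

end NV1
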