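import Pool.Agent.H1.NV.D

/-!
ROW NV/Vh. Algebra of the boundary integrals. `2 Y P = (X + l conj X)² - Y² - P²`, so `∫ Q Y P = (1/2) ∫ Q (X + l conj X)² = (1/2) (2 l ∫ Q ‖X‖² + l² ∫ Q conj X²)`, and `∫ Q conj X² = 2 ∫ (Re Q) conj X² - conj (∫ Q X²)`.
-/

set_option autoImplicit false

namespace NV1

open Complex Set Filter Topology MeasureTheory EW1 EX1 LD1
open scoped ComplexConjugate ContDiff Real

theorem alg_pt (x q y p : ℂ) (l : ℝ) (h : p = x + l * conj x - y) :
    (q * y * p).re = l * (q.re * (‖x‖ ^ 2 + l * (x ^ 2).re)) + ((1 - l ^ 2) / 2) * (q * x ^ 2).re - (1 / 2) * (q * y ^ 2).re -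
      (1 / 2) * (q * p ^ 2).re := by
  have hn : ‖x‖ ^ 2 = x.re * x.re + x.im * x.im := by
    rw [Complex.sq_norm, Complex.normSq_apply]
  rw [hn]
  subst h
  simp only [pow_two, Complex.mul_re, Complex.mul_im, Complex.add_re, Complex.add_im, Complex.sub_re, Complex.sub_im,
    Complex.conj_re, Complex.conj_im, Complex.ofReal_re, Complex.ofReal_im]
  ring

theorem alg {X Y P Q : ℝ → ℂ} (hX : Continuous X) (hY : Continuous Y) (hP : Continuous P) (hQ : Continuous Q) {l : ℝ} (hl : l ≠ 0)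
    (h : ∀ t, P t = X t + l * conj (X t) - Y t) (hXX : ∫ t in (0 : ℝ)..(2 * π), Q t * X t ^ 2 = 0)
    (hYY : ∫ t in (0 : ℝ)..(2 * π), Q t * Y t ^ 2 = 0) (hPP : ∫ t in (0 : ℝ)..(2 * π), Q t * P t ^ 2 = 0) :
    (∫ t in (0 : ℝ)..(2 * π), Q t * Y t * P t).re / (2 * l) =
      (1 / 2) * ∫ t in (0 : ℝ)..(2 * π), (Q t).re * (‖X t‖ ^ 2 + l * (X t ^ 2).re) := by
  have hre : ∀ F : ℝ → ℂ, Continuous F → (∫ t in (0 : ℝ)..(2 * π), F t).re = ∫ t in (0 : ℝ)..(2 * π), (F t).re := by
    intro F hF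
    exact (Complex.reCLM.intervalIntegral_comp_comm (hF.intervalIntegrable _ _)).symm
  have e1 := hre _ (hQ.mul (hX.pow 2))
  have e2 := hre _ (hQ.mul (hY.pow 2))
  have e3 := hre _ (hQ.mul (hP.pow 2))
  simp only [Pi.mul_apply, Pi.pow_apply] at e1 e2 e3
  rw [hXX, Complex.zero_re] at e1
  rw [hYY, Complex.zero_re] at e2
  rw [hPP, Complex.zero_re] at e3
  have e0 : (∫ t in (0 : ℝ)..(2 * π), Q t * Y t * P t).re = ∫ t in (0 : ℝ)..(2 * π), (Q t * Y t * P t).re :=
    hre (fun t => Q t * Y t * P t) (by fun_prop)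
  rw [e0]
  have c0 : Continuous (fun t => (Q t).re * (‖X t‖ ^ 2 + l * (X t ^ 2).re)) := by
    have := Complex.continuous_re.comp hQ
    have h2 := Complex.continuous_re.comp (hX.pow 2)
    have h3 := hX.norm
    simp only [Function.comp_def, Pi.pow_apply] at this h2
    fun_prop
  have c1 : Continuous (fun t => (Q t * X t ^ 2).re) := Complex.continuous_re.comp (hQ.mul (hX.pow 2))
  have c2 : Continuous (fun t => (Q t * Y t ^ 2).re) := Complex.continuous_re.comp (hQ.mul (hY.pow 2))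
  have c3 : Continuous (fun t => (Q t * P t ^ 2).re) := Complex.continuous_re.comp (hQ.mul (hP.pow 2))
  have e4 : ∀ t, (Q t * Y t * P t).re = l * ((Q t).re * (‖X t‖ ^ 2 + l * (X t ^ 2).re)) + ((1 - l ^ 2) / 2) * (Q t * X t ^ 2).re -
      (1 / 2) * (Q t * Y t ^ 2).re - (1 / 2) * (Q t * P t ^ 2).re := fun t => alg_pt _ _ _ _ l (h t)
  simp_rw [e4]
  rw [intervalIntegral.integral_sub, intervalIntegral.integral_sub, intervalIntegral.integral_add,
    intervalIntegral.integral_const_mul, intervalIntegral.integral_const_mul, intervalIntegral.integral_const_mul,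
    intervalIntegral.integral_const_mul, ← e1, ← e2, ← e3]
  · field_simp
    ring
  · exact (c0.const_mul l).intervalIntegrable _ _ 
  · exact (c1.const_mul _).intervalIntegrable _ _ 
  · exact ((c0.const_mul l).add (c1.const_mul _)).intervalIntegrable _ _ 
  · exact (c2.const_mul _).intervalIntegrable _ _ 
  · exact (((c0.const_mul l).add (c1.const_mul _)).sub (c2.const_mul _)).intervalIntegrable _ _ 
  · exact (c3.const_mul _).intervalIntegrable _ _ 

end NV1
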