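import Pool.Agent.H1.NV.Vc
import Pool.Agent.H1.NV.Vd
import Pool.Agent.H1.NV.Ve
import Pool.Agent.H1.NV.Vf
import Pool.Agent.H1.NV.Vg
import Pool.Agent.H1.NV.Vh

/-!
ROW NV/Vi. Assembly. `M n = fc 0 1 μ m ρ (n+1)`, `f n = fh l μ (M n) n`, `X t = sE μ f (ee t)`, `Y t = m (zw μ (ee t)) pw μ (ee t) = sE μ M (ee t)` (`expa`), `b n = (1 - ‖μ‖^(2n+2)) conj (f n)`, `P t = l ∑ b_n (ee t)⁻¹^(n+1)`, `Q t = qp (zw μ (ee t)) / pw μ (ee t)`.
`formC` with `F = AA a b c m` (holomorphic on `N`), `coef`, `swap` (`h t = qp m`): the form is `(1/2) ∫ (qp m) ∑ b_n w^(-n-1) = (1/(2 l)) ∫ Q Y P`. `P = X + l conj X - Y` because `M n = f n - l conj μ^(n+1) conj (f n)` and `‖ee t‖ = 1`. `antis` (for `f` and `M`), `outer`, `alg`. Finally `Re Q = Re (qp conj pw)/‖pw‖²`.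
If `X = 0` then `f = 0` (Fourier coefficients / `antis`-type uniqueness, `sE_inj`), `M = 0`, so `m (zw μ w) pw μ w = 0` and `m = 0` on `Dp 0 1 μ 1` (every point is `zw μ w` with `‖w‖ < 1`, `‖μ‖ < ‖w‖ s`; isolated zeros of `pw`, continuity, or identity theorem on the convex ellipse from an open subset).
-/

set_option autoImplicit false

namespace NV1

open Complex Set Filter Topology MeasureTheory EW1 EX1 LD1
open scoped ComplexConjugate ContDiff Real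

theorem Vi_ee_norm (t : ℝ) : ‖ee t‖ = 1 := Complex.norm_exp_ofReal_mul_I t

theorem Vi_ee_ne (t : ℝ) : ee t ≠ 0 := Complex.exp_ne_zero _

theorem Vi_ee_conj (t : ℝ) : conj (ee t) = (ee t)⁻¹ := by
  refine eq_inv_of_mul_eq_one_left ?_
  rw [mul_comm, Complex.mul_conj, Complex.normSq_eq_norm_sq, Vi_ee_norm]
  simp

theorem Vi_ee_cont : Continuous ee := by
  unfold ee
  fun_prop

theorem Vi_ee_icont : Continuous fun t => (ee t)⁻¹ := Vi_ee_cont.inv₀ Vi_ee_ne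

theorem Vi_zpow (m : ℤ) : ∫ t in (0 : ℝ)..(2 * π), ee t ^ m = if m = 0 then (2 * π : ℂ) else 0 := by
  have h1 : ∀ t : ℝ, ee t ^ m = exp ((m * I) * t) := by
    intro t
    unfold ee
    rw [← Complex.exp_int_mul]
    congr 1
    ring
  simp only [h1]
  split_ifs with h
  · subst h
    simp
  · have hm : (m : ℂ) * I ≠ 0 := mul_ne_zero (by exact_mod_cast h) I_ne_zero
    rw [integral_exp_mul_complex hm]
    have h2 : (m : ℂ) * I * ((2 * π : ℝ) : ℂ) = m * (2 * π * I) := by push_cast; ring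
    rw [h2, Complex.exp_int_mul_two_pi_mul_I]
    simp

theorem Vi_den {l : ℝ} (hl : |l| < 1) {μ : ℂ} (hμ : ‖μ‖ < 1) (n : ℕ) :
    1 - l ^ 2 ≤ 1 - l ^ 2 * ‖μ‖ ^ (2 * (n + 1)) ∧ 0 < 1 - l ^ 2 := by
  have h1 : ‖μ‖ ^ (2 * (n + 1)) ≤ 1 := pow_le_one₀ (norm_nonneg _) hμ.le
  have h2 : l ^ 2 < 1 := by rw [← sq_abs]; exact pow_lt_one₀ (abs_nonneg l) hl two_ne_zero
  have h3 : 0 ≤ l ^ 2 := sq_nonneg l
  constructor
  · nlinarith
  · linarith

/-- the background coefficient from the field coefficient -/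
theorem Vi_M {l : ℝ} (hl : |l| < 1) {μ : ℂ} (hμ : ‖μ‖ < 1) (M : ℂ) (n : ℕ) :
    M = fh l μ M n - l * conj μ ^ (n + 1) * conj (fh l μ M n) := by
  obtain ⟨h1, h2⟩ := Vi_den hl hμ n
  have hd : ((1 - l ^ 2 * ‖μ‖ ^ (2 * (n + 1)) : ℝ) : ℂ) ≠ 0 := by
    exact_mod_cast (h2.trans_le h1).ne'
  have e1 : ((‖μ‖ ^ (2 * (n + 1)) : ℝ) : ℂ) = conj μ ^ (n + 1) * μ ^ (n + 1) := by
    rw [← mul_pow, mul_comm (conj μ), Complex.mul_conj, Complex.normSq_eq_norm_sq, pow_mul]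
    push_cast
    rfl
  have e2 : ((1 - l ^ 2 * ‖μ‖ ^ (2 * (n + 1)) : ℝ) : ℂ) = 1 - (l : ℂ) ^ 2 * (conj μ ^ (n + 1) * μ ^ (n + 1)) := by
    rw [← e1]
    push_cast
    ring
  unfold fh
  rw [map_div₀, Complex.conj_ofReal, ← mul_div_assoc, ← sub_div, eq_div_iff hd, e2]
  simp only [map_add, map_mul, map_pow, Complex.conj_conj, Complex.conj_ofReal]
  ring

theorem Vi_Gs {l : ℝ} (hl : |l| < 1) {μ : ℂ} (hμ : ‖μ‖ < 1) {s : ℝ} (hs : 1 < s) {M : ℕ → ℂ} (hM : Gs s M) :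
    Gs s (fun n => fh l μ (M n) n) := by
  obtain ⟨C, hC⟩ := hM
  refine ⟨2 * C / (1 - l ^ 2), fun n => ?_⟩
  obtain ⟨h1, h2⟩ := Vi_den hl hμ n
  have h3 : ‖M n + l * conj μ ^ (n + 1) * conj (M n)‖ ≤ 2 * ‖M n‖ := by
    refine (norm_add_le _ _).trans ?_
    rw [norm_mul, norm_mul, norm_pow, RCLike.norm_conj, RCLike.norm_conj, Complex.norm_real, Real.norm_eq_abs]
    have h4 : ‖μ‖ ^ (n + 1) ≤ 1 := pow_le_one₀ (norm_nonneg _) hμ.le
    have h5 : |l| * ‖μ‖ ^ (n + 1) ≤ 1 * 1 := by gcongr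
    have h6 := norm_nonneg (M n)
    nlinarith
  have h7 : ‖fh l μ (M n) n‖ ≤ 2 * ‖M n‖ / (1 - l ^ 2) := by
    unfold fh
    rw [norm_div, Complex.norm_real, Real.norm_eq_abs, abs_of_pos (h2.trans_le h1)]
    gcongr
  have hs0 : 0 ≤ s ^ n := by positivity
  calc ‖fh l μ (M n) n‖ * s ^ n ≤ 2 * ‖M n‖ / (1 - l ^ 2) * s ^ n := by gcongr
    _ = 2 * (‖M n‖ * s ^ n) / (1 - l ^ 2) := by ring
    _ ≤ 2 * C / (1 - l ^ 2) := by
      have := hC n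
      gcongr

theorem Vi_sE {μ : ℂ} (hμ : ‖μ‖ < 1) {s : ℝ} (hs : 1 < s) {f : ℕ → ℂ} (hf : Gs s f) (t : ℝ) :
    HasSum (fun n : ℕ => f n * (ee t ^ (n + 1) - (μ * (ee t)⁻¹) ^ (n + 1))) (sE μ f (ee t)) := by
  have h1 : Summable fun n => ‖f n‖ * 2 := ((swap hs hf (h := fun _ => (0 : ℂ)) continuous_const).1.norm).mul_right 2
  refine (Summable.of_norm_bounded h1 fun n => ?_).hasSum
  rw [norm_mul]
  refine mul_le_mul_of_nonneg_left ?_ (norm_nonneg _)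
  refine (norm_sub_le _ _).trans ?_
  rw [norm_pow, norm_pow, norm_mul, norm_inv, Vi_ee_norm, one_pow, inv_one, mul_one]
  have h4 : ‖μ‖ ^ (n + 1) ≤ 1 := pow_le_one₀ (norm_nonneg _) hμ.le
  linarith

theorem Vi_pw {μ : ℂ} (hμ : ‖μ‖ < 1) (t : ℝ) : pw μ (ee t) ≠ 0 := by
  intro h
  have h1 : ee t = μ * (ee t)⁻¹ := sub_eq_zero.1 h
  have h2 := congrArg norm h1
  rw [norm_mul, norm_inv, Vi_ee_norm, inv_one, mul_one] at h2
  linarith

/-- coefficients vanish if the series vanishes on the circle -/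
theorem Vi_inj {μ : ℂ} (hμ : ‖μ‖ < 1) {s : ℝ} (hs : 1 < s) {f : ℕ → ℂ} (hf : Gs s f)
    (h0 : ∀ t ∈ Icc (0 : ℝ) (2 * π), sE μ f (ee t) = 0) (k : ℕ) : f k = 0 := by
  have hpi : (2 * π : ℂ) ≠ 0 := by
    have h2 : (π : ℂ) ≠ 0 := Complex.ofReal_ne_zero.2 Real.pi_pos.ne'
    exact mul_ne_zero two_ne_zero h2
  have hf1 : Gs s (fun n => conj (f n)) := by
    obtain ⟨C, hC⟩ := hf
    exact ⟨C, fun n => by rw [RCLike.norm_conj]; exact hC n⟩
  have hf2 : Gs s (fun n => f n * μ ^ (n + 1)) := by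
    obtain ⟨C, hC⟩ := hf
    refine ⟨C, fun n => ?_⟩
    rw [norm_mul, norm_pow]
    have h4 : ‖μ‖ ^ (n + 1) ≤ 1 := pow_le_one₀ (norm_nonneg _) hμ.le
    have hs0 : 0 ≤ s ^ n := by positivity
    calc ‖f n‖ * ‖μ‖ ^ (n + 1) * s ^ n ≤ ‖f n‖ * 1 * s ^ n := by gcongr
      _ = ‖f n‖ * s ^ n := by ring
      _ ≤ C := hC n
  obtain ⟨s1, -, s3⟩ := swap hs hf1 (h := fun t => ee t ^ (k + 1)) (Vi_ee_cont.pow _)
  obtain ⟨r1, -, r3⟩ := swap hs hf2 (h := fun t => (ee t)⁻¹ ^ (k + 1)) (Vi_ee_icont.pow _)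
  have e1 : ∀ n : ℕ, ∫ t in (0 : ℝ)..(2 * π), ee t ^ (k + 1) * (ee t)⁻¹ ^ (n + 1) = if n = k then (2 * π : ℂ) else 0 := by
    intro n
    have h1 : ∀ t : ℝ, ee t ^ (k + 1) * (ee t)⁻¹ ^ (n + 1) = ee t ^ ((k : ℤ) - n) := by
      intro t
      have hw := Vi_ee_ne t
      rw [show ((k : ℤ) - n) = ((k + 1 : ℕ) : ℤ) - ((n + 1 : ℕ) : ℤ) by push_cast; ring, zpow_sub₀ hw, zpow_natCast, zpow_natCast, inv_pow,
        div_eq_mul_inv]
    simp only [h1]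
    rw [Vi_zpow]
    by_cases h : n = k
    · rw [if_pos (by omega), if_pos h]
    · rw [if_neg (by omega), if_neg h]
  have e2 : ∀ n : ℕ, ∫ t in (0 : ℝ)..(2 * π), (ee t)⁻¹ ^ (k + 1) * (ee t)⁻¹ ^ (n + 1) = 0 := by
    intro n
    have h1 : ∀ t : ℝ, (ee t)⁻¹ ^ (k + 1) * (ee t)⁻¹ ^ (n + 1) = ee t ^ (-((k + 1 + (n + 1) : ℕ) : ℤ)) := by
      intro t
      rw [← pow_add, inv_pow, zpow_neg, zpow_natCast]
    simp only [h1]
    rw [Vi_zpow, if_neg (by omega)]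
  simp only [e1] at s3
  simp only [e2] at r3
  rw [tsum_eq_single k (fun n hn => by rw [if_neg hn, zero_div, zero_mul]), if_pos rfl, div_self hpi, one_mul] at s3
  simp only [zero_div, zero_mul, tsum_zero] at r3
  have hX : ∀ t : ℝ, sE μ f (ee t) = conj (∑' n : ℕ, conj (f n) * (ee t)⁻¹ ^ (n + 1)) - ∑' n : ℕ, f n * μ ^ (n + 1) * (ee t)⁻¹ ^ (n + 1) := by
    intro t
    have q1 : Summable fun n : ℕ => conj (f n) * (ee t)⁻¹ ^ (n + 1) := by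
      refine Summable.of_norm_bounded s1.norm fun n => ?_
      rw [norm_mul, norm_pow, norm_inv, Vi_ee_norm, inv_one, one_pow, mul_one]
    have q2 : Summable fun n : ℕ => f n * μ ^ (n + 1) * (ee t)⁻¹ ^ (n + 1) := by
      refine Summable.of_norm_bounded r1.norm fun n => ?_
      rw [norm_mul _ ((ee t)⁻¹ ^ (n + 1)), norm_pow, norm_inv, Vi_ee_norm, inv_one, one_pow, mul_one]
    have q3 := q1.hasSum.star.sub q2.hasSum
    have q4 := Vi_sE hμ hs hf t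
    refine q4.unique ?_
    refine q3.congr_fun ?_ |> fun h => h
    intro n
    show f n * (ee t ^ (n + 1) - (μ * (ee t)⁻¹) ^ (n + 1)) = conj (conj (f n) * (ee t)⁻¹ ^ (n + 1)) - f n * μ ^ (n + 1) * (ee t)⁻¹ ^ (n + 1)
    rw [map_mul, map_pow, map_inv₀, Vi_ee_conj, Complex.conj_conj, inv_inv, mul_pow]
    ring
  have h5 : (∫ t in (0 : ℝ)..(2 * π), ee t ^ (k + 1) * ∑' n : ℕ, conj (f n) * (ee t)⁻¹ ^ (n + 1)) =
      conj (∫ t in (0 : ℝ)..(2 * π), (ee t)⁻¹ ^ (k + 1) * ∑' n : ℕ, f n * μ ^ (n + 1) * (ee t)⁻¹ ^ (n + 1)) := by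
    have hcj : ∀ g : ℝ → ℂ, conj (∫ t in (0 : ℝ)..(2 * π), g t) = ∫ t in (0 : ℝ)..(2 * π), conj (g t) := by
      intro g
      rw [intervalIntegral.integral_of_le (by positivity), intervalIntegral.integral_of_le (by positivity)]
      exact integral_conj.symm
    rw [hcj]
    refine intervalIntegral.integral_congr fun t ht => ?_
    rw [uIcc_of_le (by positivity)] at ht
    have h6 := h0 t ht
    rw [hX t, sub_eq_zero] at h6
    show ee t ^ (k + 1) * ∑' n : ℕ, conj (f n) * (ee t)⁻¹ ^ (n + 1) = conj ((ee t)⁻¹ ^ (k + 1) * ∑' n : ℕ, f n * μ ^ (n + 1) * (ee t)⁻¹ ^ (n + 1))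
    rw [← h6, map_mul, Complex.conj_conj, map_pow, map_inv₀, Vi_ee_conj, inv_inv]
  have h7 : (∫ t in (0 : ℝ)..(2 * π), (ee t)⁻¹ ^ (k + 1) * ∑' n : ℕ, f n * μ ^ (n + 1) * (ee t)⁻¹ ^ (n + 1)) = 0 := by
    have := r3.symm
    rwa [div_eq_zero_iff, or_iff_left hpi] at this
  rw [h5, h7, map_zero, zero_div] at s3
  exact (map_eq_zero _).1 s3

/-- a holomorphic function which vanishes at the points of the annulus vanishes -/
theorem Vi_zero {μ : ℂ} (hμ : ‖μ‖ < 1) {m : ℂ → ℂ} (hm : DifferentiableOn ℂ m (Dp 0 1 μ 1))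
    (hmem : ∀ w : ℂ, ‖μ‖ < ‖w‖ → ‖w‖ < 1 → zw μ w ∈ Dp 0 1 μ 1)
    (h : ∀ w : ℂ, ‖μ‖ < ‖w‖ → ‖w‖ < 1 → m (zw μ w) * pw μ w = 0) : ∀ z ∈ Dp 0 1 μ 1, m z = 0 := by
  obtain ⟨x, hx⟩ : ∃ x : ℝ, x = (1 + ‖μ‖) / 2 := ⟨_, rfl⟩
  have hn := norm_nonneg μ
  have hx0 : 0 < x := by rw [hx]; linarith
  have hxn : ‖(x : ℂ)‖ = x := by rw [Complex.norm_real, Real.norm_eq_abs, abs_of_pos hx0]
  have hw1 : ‖μ‖ < ‖(x : ℂ)‖ := by rw [hxn, hx]; linarith
  have hw2 : ‖(x : ℂ)‖ < 1 := by rw [hxn, hx]; linarith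
  have hxC : (x : ℂ) ≠ 0 := by exact_mod_cast hx0.ne'
  have hx2 : ‖μ‖ < x ^ 2 := by
    rw [hx]
    nlinarith [mul_pos (sub_pos.2 hμ) (sub_pos.2 hμ)]
  have hd0 : (1 + μ * (-((x : ℂ) ^ 2)⁻¹)) ≠ 0 := by
    intro h0
    have h1 : μ = (x : ℂ) ^ 2 := by
      field_simp at h0
      linear_combination -h0
    have h2 := congrArg norm h1
    rw [norm_pow, hxn] at h2
    linarith
  have hst : HasStrictDerivAt (zw μ) (1 + μ * (-((x : ℂ) ^ 2)⁻¹)) (x : ℂ) := by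
    have h1 := (hasStrictDerivAt_id (x : ℂ)).add ((hasStrictDerivAt_inv hxC).const_mul μ)
    exact h1
  have hmap := hst.map_nhds_eq hd0
  have hev : ∀ᶠ w in 𝓝 (x : ℂ), m (zw μ w) = 0 := by
    have o1 : ∀ᶠ w in 𝓝 (x : ℂ), ‖μ‖ < ‖w‖ := (continuous_norm.tendsto _).eventually (lt_mem_nhds hw1)
    have o2 : ∀ᶠ w in 𝓝 (x : ℂ), ‖w‖ < 1 := (continuous_norm.tendsto _).eventually (gt_mem_nhds hw2)
    have o3 : ∀ᶠ w in 𝓝 (x : ℂ), ‖μ‖ < ‖w‖ ^ 2 := by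
      have hc : Continuous fun w : ℂ => ‖w‖ ^ 2 := by fun_prop
      exact (hc.tendsto _).eventually (lt_mem_nhds (by rw [hxn]; exact hx2))
    filter_upwards [o1, o2, o3] with w a1 a2 a3
    refine (mul_eq_zero.1 (h w a1 a2)).resolve_right ?_
    intro h0
    have hw0 : w ≠ 0 := by
      intro hw0
      rw [hw0, norm_zero] at a1
      linarith
    have h1 : w = μ * w⁻¹ := sub_eq_zero.1 h0
    have h2 : μ = w ^ 2 := by
      rw [sq]
      nth_rewrite 1 [h1]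
      rw [mul_assoc, inv_mul_cancel₀ hw0, mul_one]
    rw [h2, norm_pow] at a3
    exact lt_irrefl _ a3
  have hev2 : ∀ᶠ z in 𝓝 (zw μ (x : ℂ)), m z = 0 := by
    rw [← hmap]
    exact hev
  have hz0 := hmem (x : ℂ) hw1 hw2
  have hopen := Dp_open 0 1 μ 1
  have han : AnalyticOnNhd ℂ m (Dp 0 1 μ 1) := hm.analyticOnNhd hopen
  exact han.eqOn_zero_of_preconnected_of_eventuallyEq_zero (Dp_convex 0 1 μ 1).isPreconnected hz0 hev2

theorem NP {μ : ℂ} (hμ : ‖μ‖ < 1) {ρ : ℝ} (hρ : 0 < ρ) (h1 : ‖μ‖ < ρ ^ 2) (hρ1 : ρ < 1) {l : ℝ} (hl0 : l ≠ 0) (hl : |l| < 1) {N : Set ℂ}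
    (hN : IsOpen N) (hK : Kp 0 1 μ ⊆ N) {m : ℂ → ℂ} (hm : DifferentiableOn ℂ m N) :
    ∃ X : ℝ → ℂ, Continuous X ∧ (∀ a b c : ℂ, ((∫ z in Dp 0 1 μ 1, conj (m z) * AA a b c m z) + RR 0 1 μ l (AA a b c m) m ρ).re =
      (1 / 2) * ∫ t in (0 : ℝ)..(2 * π), (qp a b c (zw μ (ee t)) * conj (pw μ (ee t))).re / ‖pw μ (ee t)‖ ^ 2 *
        (‖X t‖ ^ 2 + l * (X t ^ 2).re)) ∧ ((∀ t ∈ Icc (0 : ℝ) (2 * π), X t = 0) → ∀ z ∈ Dp 0 1 μ 1, m z = 0) := by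
  obtain ⟨s, hs, hsN, hexp⟩ := expa hμ hρ h1 hρ1 hN hK
  obtain ⟨M, hM⟩ : ∃ M : ℕ → ℂ, M = fun n => fc 0 1 μ m ρ (n + 1) := ⟨_, rfl⟩
  obtain ⟨f, hf⟩ : ∃ f : ℕ → ℂ, f = fun n => fh l μ (M n) n := ⟨_, rfl⟩
  have hMG : Gs s M := by rw [hM]; exact (hexp m hm).1
  have hfG : Gs s f := by rw [hf]; exact Vi_Gs hl hμ hs hMG
  have hMf : ∀ n, M n = f n - l * conj μ ^ (n + 1) * conj (f n) := fun n => by rw [hf]; exact Vi_M hl hμ (M n) n
  have hcirc : ∀ t : ℝ, ‖μ‖ < ‖ee t‖ * s ∧ ‖ee t‖ < s := fun t => by rw [Vi_ee_norm, one_mul]; exact ⟨hμ.trans hs, hs⟩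
  have hYs : ∀ t : ℝ, m (zw μ (ee t)) * pw μ (ee t) = sE μ M (ee t) := fun t => by
    rw [hM]; exact (hexp m hm).2 _ (hcirc t).1 (hcirc t).2
  obtain ⟨bb, hbb⟩ : ∃ bb : ℕ → ℂ, bb = fun n => ((1 - ‖μ‖ ^ (2 * (n + 1)) : ℝ) : ℂ) * conj (f n) := ⟨_, rfl⟩
  have hbG : Gs s bb := by
    obtain ⟨C, hC⟩ := hfG
    refine ⟨C, fun n => ?_⟩
    rw [hbb]
    show ‖((1 - ‖μ‖ ^ (2 * (n + 1)) : ℝ) : ℂ) * conj (f n)‖ * s ^ n ≤ C
    have h4 : ‖μ‖ ^ (2 * (n + 1)) ≤ 1 := pow_le_one₀ (norm_nonneg _) hμ.le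
    have h5 : 0 ≤ ‖μ‖ ^ (2 * (n + 1)) := by positivity
    rw [norm_mul, RCLike.norm_conj, Complex.norm_real, Real.norm_eq_abs, abs_of_nonneg (by linarith)]
    have hs0 : 0 ≤ s ^ n := by positivity
    calc (1 - ‖μ‖ ^ (2 * (n + 1))) * ‖f n‖ * s ^ n ≤ 1 * ‖f n‖ * s ^ n := by
          gcongr
          linarith
      _ = ‖f n‖ * s ^ n := by ring
      _ ≤ C := hC n
  refine ⟨fun t => sE μ f (ee t), (antis hμ hs hfG 0 0 0).1, fun a b c => ?_, fun h0 => ?_⟩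
  swap
  · have hf0 := Vi_inj hμ hs hfG h0
    have hM0 : ∀ n, M n = 0 := fun n => by rw [hMf, hf0, map_zero, mul_zero, sub_zero]
    have hKD : Dp 0 1 μ 1 ⊆ N := fun z hz => hK (show ‖vv 0 1 μ z‖ ≤ 1 from (show ‖vv 0 1 μ z‖ < 1 from hz).le)
    have hmD := hm.mono hKD
    refine Vi_zero hμ hmD (fun w hw1 hw2 => ((anaG hμ hρ h1 hρ1 hmD).2 w hw1 hw2).1) fun w hw1 hw2 => ?_
    have hw3 : ‖μ‖ < ‖w‖ * s := hw1.trans_le (by
      have := norm_nonneg w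
      nlinarith)
    rw [(hexp m hm).2 w hw3 (hw2.trans hs), ← hM]
    unfold sE
    simp only [hM0, zero_mul, tsum_zero]
  · have hF : DifferentiableOn ℂ (AA a b c m) N := by
      unfold AA qd qp
      exact (DifferentiableOn.mul (by fun_prop) hm).add (DifferentiableOn.mul (by fun_prop) (hm.deriv hN))
    obtain ⟨h, hh⟩ : ∃ h : ℝ → ℂ, h = fun t => qp a b c (zw μ (ee t)) * m (zw μ (ee t)) := ⟨_, rfl⟩
    have hzwc : Continuous fun t => zw μ (ee t) := by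
      unfold zw
      exact Vi_ee_cont.add (continuous_const.mul Vi_ee_icont)
    have hpwc : Continuous fun t => pw μ (ee t) := by
      unfold pw
      exact Vi_ee_cont.sub (continuous_const.mul Vi_ee_icont)
    have hqc : Continuous fun t => qp a b c (zw μ (ee t)) := by
      unfold qp
      exact (continuous_const.add (continuous_const.mul hzwc)).add (continuous_const.mul (hzwc.pow 2))
    have hmc : Continuous fun t => m (zw μ (ee t)) :=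
      hm.continuousOn.comp_continuous hzwc fun t => hsN _ (hcirc t).1 (hcirc t).2
    have hhc : Continuous h := by rw [hh]; exact hqc.mul hmc
    obtain ⟨w1, w2, w3⟩ := swap hs hbG hhc
    have hform := formC hμ hρ h1 hρ1 hl hN hK hF hm
    have hcoef := coef hμ hρ h1 hρ1 hN hK hm a b c
    have hterm : ∀ n : ℕ, ((1 - ‖μ‖ ^ (2 * (n + 1)) : ℝ) : ℂ) * fc 0 1 μ (AA a b c m) ρ (n + 1) *
        conj (fh l μ (fc 0 1 μ m ρ (n + 1)) n) / ((n : ℂ) + 1) =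
        ((∫ t in (0 : ℝ)..(2 * π), h t * (ee t)⁻¹ ^ (n + 1)) / (2 * π)) * bb n := by
      intro n
      have hn1 : ((n : ℂ) + 1) ≠ 0 := by exact_mod_cast Nat.succ_ne_zero n
      rw [hcoef, hbb, hh, hf, hM]
      simp only
      rw [div_eq_iff hn1]
      ring
    simp only [hterm] at hform
    rw [w3] at hform
    obtain ⟨P, hP⟩ : ∃ P : ℝ → ℂ, P = fun t => l * ∑' n : ℕ, bb n * (ee t)⁻¹ ^ (n + 1) := ⟨_, rfl⟩
    obtain ⟨Q, hQ⟩ : ∃ Q : ℝ → ℂ, Q = fun t => qp a b c (zw μ (ee t)) / pw μ (ee t) := ⟨_, rfl⟩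
    have hPc : Continuous P := by rw [hP]; exact continuous_const.mul w2
    have hQc : Continuous Q := by rw [hQ]; exact hqc.div hpwc (Vi_pw hμ)
    have hlC : (l : ℂ) ≠ 0 := by exact_mod_cast hl0
    have hPX : ∀ t, P t = sE μ f (ee t) + l * conj (sE μ f (ee t)) - m (zw μ (ee t)) * pw μ (ee t) := by
      intro t
      have q1 := Vi_sE hμ hs hfG t
      have q2 := Vi_sE hμ hs hMG t
      rw [← hYs] at q2
      have q3 := (q1.add (q1.star.mul_left (l : ℂ))).sub q2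
      have q4 : HasSum (fun n : ℕ => (l : ℂ) * (bb n * (ee t)⁻¹ ^ (n + 1))) (P t) := by
        rw [hP]
        have q5 : Summable fun n : ℕ => bb n * (ee t)⁻¹ ^ (n + 1) := by
          refine Summable.of_norm_bounded w1.norm fun n => ?_
          rw [norm_mul, norm_pow, norm_inv, Vi_ee_norm, inv_one, one_pow, mul_one]
        exact q5.hasSum.mul_left (l : ℂ)
      refine q4.unique ?_
      have e : (fun n : ℕ => (l : ℂ) * (bb n * (ee t)⁻¹ ^ (n + 1))) = fun n : ℕ =>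
          f n * (ee t ^ (n + 1) - (μ * (ee t)⁻¹) ^ (n + 1)) + l * star (f n * (ee t ^ (n + 1) - (μ * (ee t)⁻¹) ^ (n + 1))) -
          M n * (ee t ^ (n + 1) - (μ * (ee t)⁻¹) ^ (n + 1)) := by
        funext n
        have e0 : star (f n * (ee t ^ (n + 1) - (μ * (ee t)⁻¹) ^ (n + 1))) =
            conj (f n) * ((ee t)⁻¹ ^ (n + 1) - (conj μ * ee t) ^ (n + 1)) := by
          show conj (f n * (ee t ^ (n + 1) - (μ * (ee t)⁻¹) ^ (n + 1))) = _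
          rw [map_mul, map_sub, map_pow, map_pow, map_mul, map_inv₀, Vi_ee_conj, inv_inv]
        have e1 : ((‖μ‖ ^ (2 * (n + 1)) : ℝ) : ℂ) = conj μ ^ (n + 1) * μ ^ (n + 1) := by
          rw [← mul_pow, mul_comm (conj μ), Complex.mul_conj, Complex.normSq_eq_norm_sq, pow_mul]
          push_cast
          rfl
        rw [e0, hMf n, hbb]
        show (l : ℂ) * (((1 - ‖μ‖ ^ (2 * (n + 1)) : ℝ) : ℂ) * conj (f n) * (ee t)⁻¹ ^ (n + 1)) = _
        rw [Complex.ofReal_sub, e1, mul_pow, mul_pow, Complex.ofReal_one]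
        ring
      rw [e]
      exact q3
    have hXX : ∫ t in (0 : ℝ)..(2 * π), Q t * sE μ f (ee t) ^ 2 = 0 := by rw [hQ]; exact (antis hμ hs hfG a b c).2
    have hYY : ∫ t in (0 : ℝ)..(2 * π), Q t * (m (zw μ (ee t)) * pw μ (ee t)) ^ 2 = 0 := by
      simp only [hYs]
      rw [hQ]
      exact (antis hμ hs hMG a b c).2
    have hPP : ∫ t in (0 : ℝ)..(2 * π), Q t * P t ^ 2 = 0 := by
      have h5 := outer hμ hs hbG a b c
      have h6 : ∀ t, Q t * P t ^ 2 = (l : ℂ) ^ 2 * (qp a b c (zw μ (ee t)) / pw μ (ee t) * (∑' n : ℕ, bb n * (ee t)⁻¹ ^ (n + 1)) ^ 2) := by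
        intro t
        rw [hQ, hP]
        ring
      simp only [h6]
      rw [intervalIntegral.integral_const_mul, h5, mul_zero]
    have halg := alg (X := fun t => sE μ f (ee t)) (Y := fun t => m (zw μ (ee t)) * pw μ (ee t)) (antis hμ hs hfG 0 0 0).1 (hmc.mul hpwc) hPc hQc hl0 hPX hXX hYY hPP
    have hlast : (∫ t in (0 : ℝ)..(2 * π), h t * ∑' n : ℕ, bb n * (ee t)⁻¹ ^ (n + 1)) =
        (∫ t in (0 : ℝ)..(2 * π), Q t * (m (zw μ (ee t)) * pw μ (ee t)) * P t) / l := by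
      rw [← intervalIntegral.integral_div]
      refine intervalIntegral.integral_congr fun t _ => ?_
      have hp := Vi_pw hμ t
      rw [hh, hQ, hP]
      simp only
      field_simp
    rw [hform, hlast]
    have hpi : (π : ℂ) ≠ 0 := Complex.ofReal_ne_zero.2 Real.pi_pos.ne'
    have e3 : (π : ℂ) * ((∫ t in (0 : ℝ)..(2 * π), Q t * (m (zw μ (ee t)) * pw μ (ee t)) * P t) / l / (2 * π)) =
        (∫ t in (0 : ℝ)..(2 * π), Q t * (m (zw μ (ee t)) * pw μ (ee t)) * P t) / ((2 * l : ℝ) : ℂ) := by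
      push_cast
      field_simp
    rw [e3, Complex.div_ofReal_re, halg]
    congr 1
    refine intervalIntegral.integral_congr fun t _ => ?_
    have e4 : (Q t).re = (qp a b c (zw μ (ee t)) * conj (pw μ (ee t))).re / ‖pw μ (ee t)‖ ^ 2 := by
      rw [hQ]
      show (qp a b c (zw μ (ee t)) / pw μ (ee t)).re = _
      rw [div_eq_mul_inv, Complex.inv_def, ← mul_assoc, Complex.re_mul_ofReal, Complex.normSq_eq_norm_sq, div_eq_mul_inv]
    show (Q t).re * _ = _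
    rw [e4]

end NV1
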